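import Pool.Agent.N778.AF.Gen3

/-!
# The two general dichotomies over a base field
-/

set_option autoImplicit false

open Filter Set MeasureTheory

namespace Pool.Agent.N778.AF

open MvPolynomial
open Pool.Agent.N778.EM (MeasF)
open Pool.Agent.R352.E (clF mem_clF subset_clF clF_mono clF_le of_pow)

/-- At each scale `θ₀` and the constants `y` are not near a relation, or one of the numbers `v i` is not near a number
algebraic over `ℚ(θ₀)`, or `θ₀` and the numbers `u j` are not near a relation. -/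
def Dich3 {n : ℕ} (θ₀ : Fin n → ℝ) {ρ ν κ : Type} (y : ρ → ℝ) (v : ν → ℝ) (u : κ → ℝ) : Prop :=
  ∀ D : ℕ, ∃ k : ℕ, ∃ c : ℝ, 0 < c ∧ ∀ (F : MvPolynomial (Fin n ⊕ ρ) ℤ) (Q : ν → MvPolynomial (Fin (n + 1)) ℤ)
    (P : MvPolynomial (Fin n ⊕ κ) ℤ), F ≠ 0 → (∀ i, Q i ≠ 0) → P ≠ 0 → F.totalDegree ≤ D →
    (∀ i, (Q i).totalDegree ≤ D) → P.totalDegree ≤ D → ∀ H : ℝ, 1 ≤ H → (∀ s, |((F.coeff s : ℤ) : ℝ)| ≤ H) →
    (∀ i s, |(((Q i).coeff s : ℤ) : ℝ)| ≤ H) → (∀ s, |((P.coeff s : ℤ) : ℝ)| ≤ H) →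
      c ≤ H ^ k * |aeval (Sum.elim θ₀ y) F| ∨
      (∃ i, c ≤ H ^ k * |aeval (Fin.cons (v i) θ₀ : Fin (n + 1) → ℝ) (Q i)|) ∨
        c ≤ H ^ k * |aeval (Sum.elim θ₀ u) P|

/-- the type of the variables -/
def VT4 (n : ℕ) (ρ ν κ : Type) : Option (ν ⊕ Unit) → Type
  | none => Fin n ⊕ ρ
  | some (.inl _) => Fin (n + 1)
  | some (.inr _) => Fin n ⊕ κ

instance (n : ℕ) (ρ ν κ : Type) [Fintype ρ] [Fintype κ] : ∀ a : Option (ν ⊕ Unit), Fintype (VT4 n ρ ν κ a)
  | none => inferInstanceAs (Fintype (Fin n ⊕ ρ))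
  | some (.inl _) => inferInstanceAs (Fintype (Fin (n + 1)))
  | some (.inr _) => inferInstanceAs (Fintype (Fin n ⊕ κ))

/-- the values of the variables -/
noncomputable def VX4 {n : ℕ} (θ₀ : Fin n → ℝ) {ρ ν κ : Type} (y : ρ → ℝ) (v : ν → ℝ) (u : κ → ℝ) :
    (a : Option (ν ⊕ Unit)) → VT4 n ρ ν κ a → ℝ
  | none => Sum.elim θ₀ y
  | some (.inl i) => (Fin.cons (v i) θ₀ : Fin (n + 1) → ℝ)
  | some (.inr _) => Sum.elim θ₀ u

theorem Dich3_of {n : ℕ} (θ₀ : Fin n → ℝ) {ρ ν κ : Type} [Fintype ρ] [Fintype κ] (y : ρ → ℝ) (v : ν → ℝ) (u : κ → ℝ)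
    (h : ∀ σ : Scale, ¬ AlgebraicIndependent (base σ) (fun j => cst σ (Sum.elim θ₀ y j)) →
      (∀ i, ¬ AlgebraicIndependent (base σ) (fun j => cst σ ((Fin.cons (v i) θ₀ : Fin (n + 1) → ℝ) j))) →
      AlgebraicIndependent (base σ) (fun j => cst σ (Sum.elim θ₀ u j))) : Dich3 θ₀ y v u := by
  intro D
  have hNS : NS (VX4 θ₀ y v u) := by
    refine NS_of _ fun σ => ?_
    by_cases h0 : AlgebraicIndependent (base σ) (fun j => cst σ (Sum.elim θ₀ y j))
    · exact ⟨none, h0⟩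
    by_cases h1 : ∀ i, ¬ AlgebraicIndependent (base σ) (fun j => cst σ ((Fin.cons (v i) θ₀ : Fin (n + 1) → ℝ) j))
    · exact ⟨some (.inr ()), h σ h0 h1⟩
    · push Not at h1
      obtain ⟨i, hi⟩ := h1
      exact ⟨some (.inl i), hi⟩
  obtain ⟨k, c, hc, h1⟩ := hNS D
  refine ⟨k, c, hc, fun F Q P hF hQ hP hFD hQD hPD H hH hFH hQH hPH => ?_⟩
  obtain ⟨a, ha⟩ := h1 (fun a => match a with
    | none => F
    | some (.inl i) => Q i
    | some (.inr _) => P) (by rintro (_ | i | i); exacts [hF, hQ i, hP])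
    (by rintro (_ | i | i); exacts [hFD, hQD i, hPD]) H hH (by rintro (_ | i | i); exacts [hFH, hQH i, hPH])
  rcases a with _ | i | i
  · exact Or.inl ha
  · exact Or.inr (Or.inl ⟨i, ha⟩)
  · exact Or.inr (Or.inr ha)

section gen

variable {n : ℕ} (θ₀ : Fin n → ℝ) {X : Type} (valid : X → Prop) {r : ℕ} (Z R : X → ℝ) (y : Fin r → ℝ)
  (hm : ∀ S : Finset X, (∀ x ∈ S, valid x) → MeasF (Sum.elim θ₀ (fun p : S => Z p)))
  (hZ : ∀ p : X, valid p → ∀ T : Set ℝ, range θ₀ ∪ range y ⊆ clF T → R p ∈ clF T → Z p ∈ clF T)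

include hm hZ

/-- **The first general dichotomy** over `ℚ(θ₀)`. -/
theorem gen1 (t N : Finset (Fin r ⊕ X)) (hv : ∀ p, Sum.inr p ∈ t ∨ Sum.inr p ∈ N → valid p) (hcard : r ≤ t.card)
    (hd : Disjoint t N) :
    Dich θ₀ (fun i : t => Sum.elim y R (i : Fin r ⊕ X)) (fun i : N => Sum.elim y R (i : Fin r ⊕ X)) := by
  classical
  refine Dich_of _ _ _ fun σ hσ => ?_
  set V : Fin r ⊕ X → ℝ := Sum.elim y R with hV
  let PF : Finset X := (t ∪ N).biUnion fun i => Sum.elim (fun _ => ∅) (fun p => {p}) i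
  have hPF : ∀ p : X, Sum.inr p ∈ t ∪ N → p ∈ PF := fun p hp => Finset.mem_biUnion.2 ⟨_, hp, by simp⟩
  have hPF' : ∀ p ∈ PF, valid p := by
    intro p hp
    obtain ⟨i, hi, hxi⟩ := Finset.mem_biUnion.1 hp
    rcases i with i | q
    · simp at hxi
    · simp at hxi
      subst hxi
      exact hv p (Finset.mem_union.1 hi)
  have hind := indep_of_meas σ (hm PF hPF')
  have he1 : AlgebraicIndependent (base σ) (fun j : Fin n => cst σ (θ₀ j)) :=
    hind.comp (Sum.inl : Fin n → Fin n ⊕ PF) Sum.inl_injective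
  have hnear : ∀ i ∈ t, cst σ (V i) ∈ clA σ (range fun j => cst σ (θ₀ j)) := fun i hi =>
    mem_of_near σ he1 (hσ ⟨i, hi⟩)
  -- all the names
  let M : Finset (Fin r ⊕ X) := (Finset.univ : Finset (Fin r)).disjSum PF
  have htM : ∀ i ∈ t ∪ N, i ∈ M := by
    intro i hi
    rcases i with i | p
    · exact Finset.inl_mem_disjSum.2 (Finset.mem_univ _)
    · exact Finset.inr_mem_disjSum.2 (hPF p hi)
  have hMcard : M.card = r + PF.card := by
    rw [Finset.card_disjSum, Finset.card_univ, Fintype.card_fin]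
  let M' : Finset (Fin r ⊕ X) := M \ t
  have hM'card : M'.card ≤ PF.card := by
    rw [Finset.card_sdiff_of_subset (fun i hi => htM i (Finset.mem_union_left _ hi))]
    omega
  have key : AlgebraicIndependent (base σ)
      (fun j : Fin n ⊕ M' => cst σ (Sum.elim θ₀ (fun i : M' => V i) j)) := by
    refine indep_of_spanA σ hind ?_ ?_
    · set T' : Set (AK σ) :=
        range (fun j : Fin n ⊕ M' => cst σ (Sum.elim θ₀ (fun i : M' => V i) j)) with hT'
      have he : ∀ j, cst σ (θ₀ j) ∈ clA σ T' := fun j => subset_clA σ _ ⟨Sum.inl j, rfl⟩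
      have hVM : ∀ i ∈ M, cst σ (V i) ∈ clA σ T' := by
        intro i hi
        by_cases hit : i ∈ t
        · refine clA_le σ ?_ (hnear i hit)
          rintro _ ⟨j, rfl⟩
          exact he j
        · exact subset_clA σ _ ⟨Sum.inr ⟨i, Finset.mem_sdiff.2 ⟨hi, hit⟩⟩, rfl⟩
      rintro (j | p)
      · exact he j
      · refine cst_mem_of σ (hZ p.1 (hPF' _ p.2) (range θ₀ ∪ range y ∪ {R p.1}) ?_ ?_) ?_
        · exact fun z hz => subset_clF _ (Or.inl hz)
        · exact subset_clF _ (Or.inr rfl)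
        · rintro z ((⟨j, rfl⟩ | ⟨i, rfl⟩) | hz)
          · exact he j
          · exact hVM (Sum.inl i) (Finset.inl_mem_disjSum.2 (Finset.mem_univ _))
          · rw [mem_singleton_iff.1 hz]
            exact hVM (Sum.inr p.1) (Finset.inr_mem_disjSum.2 p.2)
    · simp only [Fintype.card_sum, Fintype.card_fin, Fintype.card_coe]
      omega
  have hNM : ∀ i ∈ N, i ∈ M' := fun i hi =>
    Finset.mem_sdiff.2 ⟨htM i (Finset.mem_union_right _ hi), fun h => Finset.disjoint_left.1 hd h hi⟩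
  have h1 := key.comp (Sum.map id fun i : N => (⟨i.1, hNM i.1 i.2⟩ : M')) (by
    refine Function.Injective.sumMap Function.injective_id ?_
    intro a b hab
    exact Subtype.ext (congrArg (fun z : M' => z.1) hab))
  convert h1 using 1
  funext j
  rcases j with j | j <;> rfl

/-- **The second general dichotomy** over `ℚ(θ₀)`. -/
theorem gen2 (t N : Finset X) (hv : ∀ p, p ∈ t ∨ p ∈ N → valid p) (hcard : r ≤ t.card + 1) (hd : Disjoint t N) :
    Dich3 θ₀ y (fun i : t => R i) (fun i : N => R i) := by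
  classical
  refine Dich3_of _ _ _ _ fun σ hy hσ => ?_
  have hind := indep_of_meas σ (hm (t ∪ N) fun p hp => hv p (Finset.mem_union.1 hp))
  have he1 : AlgebraicIndependent (base σ) (fun j : Fin n => cst σ (θ₀ j)) :=
    hind.comp (Sum.inl : Fin n → Fin n ⊕ (t ∪ N : Finset X)) Sum.inl_injective
  set E : Set (AK σ) := range fun j : Fin n => cst σ (θ₀ j) with hE
  have hnear : ∀ i ∈ t, cst σ (R i) ∈ clA σ E := fun i hi => mem_of_near σ he1 (hσ ⟨i, hi⟩)
  set A : Set (AK σ) := range (fun j : Fin n ⊕ N => cst σ (Sum.elim θ₀ (fun i : N => R i) j)) with hA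
  set B : Set (AK σ) := range (fun j : Fin n ⊕ Fin r => cst σ (Sum.elim θ₀ y j)) with hB
  have hEA : E ⊆ A := by
    rintro _ ⟨j, rfl⟩
    exact ⟨Sum.inl j, rfl⟩
  have hEB : E ⊆ B := by
    rintro _ ⟨j, rfl⟩
    exact ⟨Sum.inl j, rfl⟩
  -- the lower bound
  have hlow : ((n + (t.card + N.card) : ℕ) : ℕ∞) ≤ (Ma σ).eRk (A ∪ B) := by
    have h1 := card_leA σ hind (T := A ∪ B) ?_
    · refine le_trans (le_of_eq ?_) h1
      simp only [Fintype.card_sum, Fintype.card_fin, Fintype.card_coe, Finset.card_union_of_disjoint hd]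
    · have hEm : ∀ j, cst σ (θ₀ j) ∈ clA σ (A ∪ B) := fun j => subset_clA σ _ (Or.inl (hEA ⟨j, rfl⟩))
      have hRm : ∀ p ∈ t ∪ N, cst σ (R p) ∈ clA σ (A ∪ B) := by
        intro p hp
        rcases Finset.mem_union.1 hp with hp | hp
        · refine clA_le σ ?_ (hnear p hp)
          rintro _ ⟨j, rfl⟩
          exact hEm j
        · exact subset_clA σ _ (Or.inl ⟨Sum.inr ⟨p, hp⟩, rfl⟩)
      rintro (j | p)
      · exact hEm j
      · refine cst_mem_of σ (hZ p.1 (hv _ (Finset.mem_union.1 p.2)) (range θ₀ ∪ range y ∪ {R p.1}) ?_ ?_) ?_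
        · exact fun z hz => subset_clF _ (Or.inl hz)
        · exact subset_clF _ (Or.inr rfl)
        · rintro z ((⟨j, rfl⟩ | ⟨i, rfl⟩) | hz)
          · exact hEm j
          · exact subset_clA σ _ (Or.inr ⟨Sum.inr i, rfl⟩)
          · rw [mem_singleton_iff.1 hz]
            exact hRm p.1 p.2
  -- submodularity
  have hsub := (Ma σ).eRk_submod A B
  have hinter : (n : ℕ∞) ≤ (Ma σ).eRk (A ∩ B) := by
    have h2 := card_leA σ he1 (T := A ∩ B) (fun j => subset_clA σ _ ⟨hEA ⟨j, rfl⟩, hEB ⟨j, rfl⟩⟩)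
    rwa [Fintype.card_fin] at h2
  have hBr : (Ma σ).eRk B + 1 ≤ ((n + r : ℕ) : ℕ∞) := by
    have := rk_of_dep σ hy
    simpa using this
  refine indep_of_rk σ ?_
  rw [Fintype.card_sum, Fintype.card_fin, Fintype.card_coe]
  -- arithmetic
  have hAfin : (Ma σ).eRk A ≠ ⊤ := (((Ma σ).eRk_le_encard _).trans_lt (finite_range _).encard_lt_top).ne
  have hBfin : (Ma σ).eRk B ≠ ⊤ := (((Ma σ).eRk_le_encard _).trans_lt (finite_range _).encard_lt_top).ne
  have hUfin : (Ma σ).eRk (A ∪ B) ≠ ⊤ := (((Ma σ).eRk_le_encard _).trans_lt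
    ((finite_range _).union (finite_range _)).encard_lt_top).ne
  have hIfin : (Ma σ).eRk (A ∩ B) ≠ ⊤ := (((Ma σ).eRk_le_encard _).trans_lt
    (((finite_range _).inter_of_left _)).encard_lt_top).ne
  obtain ⟨a, ha⟩ := ENat.ne_top_iff_exists.1 hAfin
  obtain ⟨b, hb⟩ := ENat.ne_top_iff_exists.1 hBfin
  obtain ⟨w, hw⟩ := ENat.ne_top_iff_exists.1 hUfin
  obtain ⟨m, hm'⟩ := ENat.ne_top_iff_exists.1 hIfin
  have hA' : (Ma σ).eRk A = a := ha.symm
  rw [← ha, ← hb, ← hw, ← hm'] at hsub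
  rw [← hw] at hlow
  rw [← hm'] at hinter
  rw [← hb] at hBr
  rw [hA']
  norm_cast at hsub hlow hinter hBr ⊢
  omega

end gen

theorem Dy_of3 {ρ ν κ : Type} {y : ρ → ℝ} {v : ν → ℝ} {u : κ → ℝ} (h : Dich3 (fun _ : Fin 1 => Real.exp 1) y v u) :
    Dy y v u := by
  intro D
  obtain ⟨k, c, hc, h1⟩ := h D
  refine ⟨k, c, hc, fun F Q P hF hQ hP hFD hQD hPD H hH hFH hQH hPH => ?_⟩
  have hHk : 0 < H ^ k := by positivity
  have hinj : ∀ {α : Type}, Function.Injective (fun o : Option α => (o.elim (Sum.inl 0) Sum.inr : Fin 1 ⊕ α)) := by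
    intro α a b hab
    cases a <;> cases b <;> simp_all
  have hel : ∀ {α : Type} (w : α → ℝ), (Sum.elim (fun _ : Fin 1 => Real.exp 1) w ∘
      fun o : Option α => (o.elim (Sum.inl 0) Sum.inr : Fin 1 ⊕ α)) = fun o : Option α => o.elim (Real.exp 1) w := by
    intro α w
    funext o
    cases o <;> rfl
  rcases h1 (MvPolynomial.rename _ F) Q (MvPolynomial.rename _ P) (rename_ne hinj hF) hQ (rename_ne hinj hP)
    ((MvPolynomial.totalDegree_rename_le _ _).trans hFD) hQD ((MvPolynomial.totalDegree_rename_le _ _).trans hPD)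
    H hH (rename_ht hinj hH hFH) hQH (rename_ht hinj hH hPH) with h2 | ⟨i, h2⟩ | h2
  · refine Or.inl ?_
    rw [MvPolynomial.aeval_rename, hel] at h2
    rw [div_le_iff₀ hHk, mul_comm]
    exact h2
  · refine Or.inr (Or.inl ⟨i, ?_⟩)
    have e1 : (Fin.cons (v i) (fun _ : Fin 1 => Real.exp 1) : Fin 2 → ℝ) = ![v i, Real.exp 1] := by
      funext j
      fin_cases j <;> rfl
    rw [e1] at h2
    rw [div_le_iff₀ hHk, mul_comm]
    exact h2
  · refine Or.inr (Or.inr ?_)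
    rw [MvPolynomial.aeval_rename, hel] at h2
    rw [div_le_iff₀ hHk, mul_comm]
    exact h2

end Pool.Agent.N778.AF
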