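import Pool.Agent.N778.AF.Tri

/-!
# Rational functions of `t` and `e` which are Liouville numbers
-/

set_option autoImplicit false

open Filter Set MeasureTheory

namespace Pool.Agent.N778.AF

open MvPolynomial
open Pool.Agent.R352.E (clF mem_clF subset_clF clF_mono clF_le of_pow)

/-- if a rational function of `t` and `e` is a Liouville number then `t` is very well approximable by numbers algebraic
over `ℚ(e)` -/
theorem UN_of_liouville_frac {t : ℝ} (W V : MvPolynomial (Fin 2) ℤ) (hV : aeval ![t, Real.exp 1] V ≠ 0)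
    (hWV : ∀ a b : ℤ, b ≠ 0 → C b * W - C a * V ≠ 0)
    (h : Liouville (aeval ![t, Real.exp 1] W / aeval ![t, Real.exp 1] V)) : UN t := by
  classical
  set v : ℝ := aeval ![t, Real.exp 1] V with hv
  set w : ℝ := aeval ![t, Real.exp 1] W with hw
  refine ⟨max W.totalDegree V.totalDegree, fun k c hc => ?_⟩
  obtain ⟨B₁, hB₁, hWB⟩ := exists_ht W
  obtain ⟨B₂, hB₂, hVB⟩ := exists_ht V
  set B : ℝ := B₁ + (|w / v| + 2) * B₂ with hB
  have hB1 : 1 ≤ B := by
    have := abs_nonneg (w / v)
    nlinarith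
  have hB0 : 0 < B := by linarith
  have hv0 : 0 < |v| := abs_pos.2 hV
  obtain ⟨m, hm⟩ := pow_unbounded_of_one_lt (|v| * B ^ k / c) (one_lt_two (α := ℝ))
  obtain ⟨a, b, hb, -, hab⟩ := h (k + 1 + m)
  have hb1 : (1 : ℝ) < b := by exact_mod_cast hb
  have hb0 : (0 : ℝ) < b := by linarith
  have hb2 : (2 : ℝ) ≤ b := by exact_mod_cast hb
  have hsmall : |(b : ℝ) * (w / v) - a| < 1 / (b : ℝ) ^ (k + m) := by
    have e1 : (b : ℝ) * (w / v) - a = b * (w / v - a / b) := by field_simp
    rw [e1, abs_mul, abs_of_pos hb0]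
    calc (b : ℝ) * |w / v - a / b| < b * (1 / (b : ℝ) ^ (k + 1 + m)) := mul_lt_mul_of_pos_left hab hb0
      _ = 1 / (b : ℝ) ^ (k + m) := by
        rw [show k + 1 + m = (k + m) + 1 by ring, pow_succ]
        field_simp
  have ha : |(a : ℝ)| ≤ (|w / v| + 2) * b := by
    have h1 : |(a : ℝ)| ≤ |(b : ℝ) * (w / v)| + |(b : ℝ) * (w / v) - a| := by
      have := abs_sub_abs_le_abs_sub ((a : ℝ)) (b * (w / v))
      rw [abs_sub_comm] at this
      linarith
    have h2 : 1 / (b : ℝ) ^ (k + m) ≤ 1 := by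
      rw [div_le_one (by positivity)]
      exact one_le_pow₀ hb1.le
    have h3 : |(b : ℝ) * (w / v)| = b * |w / v| := by rw [abs_mul, abs_of_pos hb0]
    rw [h3] at h1
    nlinarith
  refine ⟨C b * W - C a * V, B * b, hWV a b (by omega), ?_, by nlinarith, fun s => ?_, ?_⟩
  · refine (MvPolynomial.totalDegree_sub _ _).trans (max_le_max ?_ ?_)
    · exact (MvPolynomial.totalDegree_mul _ _).trans (by rw [MvPolynomial.totalDegree_C, zero_add])
    · exact (MvPolynomial.totalDegree_mul _ _).trans (by rw [MvPolynomial.totalDegree_C, zero_add])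
  · rw [MvPolynomial.coeff_sub, MvPolynomial.coeff_C_mul, MvPolynomial.coeff_C_mul]
    push_cast
    refine (abs_sub _ _).trans ?_
    rw [abs_mul, abs_mul, abs_of_pos hb0]
    have h1 := hWB s
    have h2 := hVB s
    have h3 : |(a : ℝ)| * |((V.coeff s : ℤ) : ℝ)| ≤ (|w / v| + 2) * b * B₂ :=
      mul_le_mul ha h2 (abs_nonneg _) (by positivity)
    have h4 : (b : ℝ) * |((W.coeff s : ℤ) : ℝ)| ≤ b * B₁ := mul_le_mul_of_nonneg_left h1 hb0.le
    rw [hB]
    nlinarith
  · have e1 : aeval ![t, Real.exp 1] (C b * W - C a * V) = v * (b * (w / v) - a) := by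
      rw [map_sub, map_mul, map_mul, ← hv, ← hw]
      have hv' : v ≠ 0 := hV
      simp only [algebraMap_int_eq, eq_intCast, map_intCast]
      field_simp
    rw [e1, abs_mul]
    calc |v| * |(b : ℝ) * (w / v) - a| < |v| * (1 / (b : ℝ) ^ (k + m)) := mul_lt_mul_of_pos_left hsmall hv0
      _ ≤ c / (B * b) ^ k := by
        rw [mul_one_div, div_le_div_iff₀ (by positivity) (by positivity), mul_pow, pow_add]
        have h4 : (2 : ℝ) ^ m ≤ (b : ℝ) ^ m := pow_le_pow_left₀ (by norm_num) hb2 m
        have h5 : |v| * B ^ k ≤ c * (b : ℝ) ^ m := by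
          rw [div_lt_iff₀ hc] at hm
          nlinarith
        have h6 : (0 : ℝ) < (b : ℝ) ^ k := by positivity
        nlinarith

/-- the sum, the difference, the product and the quotient of `t` and `e` -/
theorem UN_of_four {t : ℝ} (h : Liouville (t + Real.exp 1) ∨ Liouville (t - Real.exp 1) ∨
    Liouville (t * Real.exp 1) ∨ Liouville (t / Real.exp 1)) : UN t := by
  have ht : t = aeval ![t, Real.exp 1] (X 0 : MvPolynomial (Fin 2) ℤ) := by simp
  have key : ∀ (W V : MvPolynomial (Fin 2) ℤ) (p q : Fin 2 → ℤ), aeval p V = 1 → aeval q V = 1 →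
      aeval p W ≠ aeval q W → ∀ a b : ℤ, b ≠ 0 → C b * W - C a * V ≠ 0 := by
    intro W V p q h1 h2 h3 a b hb h0
    have e1 := congrArg (aeval p) h0
    have e2 := congrArg (aeval q) h0
    rw [map_zero, map_sub, map_mul, map_mul, h1] at e1
    rw [map_zero, map_sub, map_mul, map_mul, h2] at e2
    simp only [algebraMap_int_eq, eq_intCast, map_intCast, Int.cast_id, mul_one, sub_eq_zero] at e1 e2
    apply h3
    have : b * (aeval p W - aeval q W) = 0 := by rw [mul_sub, e1, e2, sub_self]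
    rcases mul_eq_zero.1 this with h | h
    · exact absurd h hb
    · exact sub_eq_zero.1 h
  rcases h with h | h | h | h
  · refine UN_of_liouville_frac (X 0 + X 1) 1 (by simp) (key _ _ ![0, 0] ![1, 0] (by simp) (by simp) (by simp)) ?_
    simpa using h
  · refine UN_of_liouville_frac (X 0 - X 1) 1 (by simp) (key _ _ ![0, 0] ![1, 0] (by simp) (by simp) (by simp)) ?_
    simpa using h
  · refine UN_of_liouville_frac (X 0 * X 1) 1 (by simp) (key _ _ ![0, 1] ![1, 1] (by simp) (by simp) (by simp)) ?_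
    simpa using h
  · refine UN_of_liouville_frac (X 0) (X 1) (by simp) (key _ _ ![0, 1] ![1, 1] (by simp) (by simp) (by simp)) ?_
    simpa using h

/-- the algebraic case -/
theorem mem_of_four {t : ℝ} (h : IsAlgebraic ℚ (t + Real.exp 1) ∨ IsAlgebraic ℚ (t - Real.exp 1) ∨
    IsAlgebraic ℚ (t * Real.exp 1) ∨ IsAlgebraic ℚ (t / Real.exp 1)) : t ∈ clF {Real.exp 1} := by
  have he : Real.exp 1 ∈ clF {Real.exp 1} := subset_clF _ rfl
  have he0 : Real.exp 1 ≠ 0 := (Real.exp_pos 1).ne'
  have alg : ∀ {z : ℝ}, IsAlgebraic ℚ z → z ∈ clF {Real.exp 1} := fun h => mem_clF.2 (h.tower_top _)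
  rcases h with h | h | h | h
  · have := (clF {Real.exp 1}).sub_mem (alg h) he
    rwa [add_sub_cancel_right] at this
  · have := (clF {Real.exp 1}).add_mem (alg h) he
    rwa [sub_add_cancel] at this
  · have := (clF {Real.exp 1}).div_mem (alg h) he
    rwa [mul_div_cancel_right₀ _ he0] at this
  · have := (clF {Real.exp 1}).mul_mem (alg h) he
    rwa [div_mul_cancel₀ _ he0] at this

end Pool.Agent.N778.AF
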