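import Pool.Agent.N778.AF.Gen3
import Pool.Agent.N778.EM.FinalQ

/-!
# Measures for the incomplete zeta values
-/

set_option autoImplicit false

open Set

namespace Pool.Agent.N778.AF

open Pool.Agent.N778.EM (MeasF EE_meas_X meas_of_span)
open Pool.Agent.R352.E (clF mem_clF subset_clF clF_mono clF_le of_pow zt)
open Pool.Agent.R352.Q

/-- the measure for the spanning family -/
lemma W_meas (J : ℕ) (X : Finset ℚ) (hX : ∀ x ∈ X, 0 < x) :
    MeasF (Sum.elim (fun _ : Fin 1 => Real.exp 1) (fun p : Fin J × X => W p.1 ((p.2 : ℚ) : ℝ))) := by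
  refine meas_of_span (EE_meas_X J X hX) _ ?_ le_rfl
  set T : Set ℝ := range (Sum.elim (fun _ : Fin 1 => Real.exp 1) (fun p : Fin J × X => W p.1 ((p.2 : ℚ) : ℝ))) with hT
  have he : Real.exp 1 ∈ clF T := subset_clF _ ⟨Sum.inl 0, rfl⟩
  rintro (j | p)
  · exact he
  · have hJ := p.1.2
    refine mem_of_Zk (hX _ p.2.2) he ?_ (J := J) (by omega) (fun k hk hk' => ?_) (p.1 + 1) (by omega)
    · refine subset_clF _ ⟨Sum.inr (⟨0, by omega⟩, p.2), ?_⟩
      simp [W]
    · refine subset_clF _ ⟨Sum.inr (⟨k - 1, by omega⟩, p.2), ?_⟩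
      simp only [Sum.elim_inr, W]
      rw [if_neg (by omega), Nat.sub_add_cancel (by omega)]

/-- the measure for `e` and the incomplete zeta values -/
theorem Zk_meas (S : Finset (ℕ × ℚ)) (hS : ∀ p ∈ S, 2 ≤ p.1 ∧ 0 < p.2) :
    MeasF (Sum.elim (fun _ : Fin 1 => Real.exp 1) (fun p : S => Zk (p : ℕ × ℚ).1 (((p : ℕ × ℚ).2 : ℚ) : ℝ))) := by
  classical
  let J : ℕ := S.sup Prod.fst
  let X : Finset ℚ := S.image Prod.snd
  have hX : ∀ x ∈ X, 0 < x := by
    intro x hx
    obtain ⟨p, hp, rfl⟩ := Finset.mem_image.1 hx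
    exact (hS p hp).2
  have hJ : ∀ p ∈ S, p.1 ≤ J := fun p hp => Finset.le_sup (f := Prod.fst) hp
  let f : Fin 1 ⊕ S → Fin 1 ⊕ (Fin J × X) := Sum.map id fun p =>
    (⟨p.1.1 - 1, by have := hJ p.1 p.2; have := hS p.1 p.2; omega⟩, ⟨p.1.2, Finset.mem_image_of_mem _ p.2⟩)
  have hf : Function.Injective f := by
    refine Function.Injective.sumMap Function.injective_id ?_
    intro p q hpq
    simp only [Prod.mk.injEq, Fin.mk.injEq, Subtype.mk.injEq] at hpq
    have h1 := hS p.1 p.2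
    have h2 := hS q.1 q.2
    exact Subtype.ext (Prod.ext (by omega) hpq.2)
  have h1 := (W_meas J X hX).comp f hf
  convert h1 using 1
  funext s
  rcases s with s | p
  · rfl
  · have h2 := hS p.1 p.2
    simp only [f, Sum.map_inr, Sum.elim_inr, Function.comp_apply, W]
    rw [if_neg (by omega), Nat.sub_add_cancel (by omega)]

/-- the names `(k, x)`, `k ∈ K`, `x > 0` -/
abbrev ZN (K : Set ℕ) : Type := {p : ℕ × ℚ // p.1 ∈ K ∧ 0 < p.2}

variable {K : Set ℕ} {r : ℕ} {y : Fin r → ℝ}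

lemma ZN_meas (hK : ∀ k ∈ K, 2 ≤ k) (S : Finset (ZN K)) :
    MeasF (Sum.elim (fun _ : Fin 1 => Real.exp 1) (fun p : S => Zk (p : ZN K).1.1 (((p : ZN K).1.2 : ℚ) : ℝ))) := by
  classical
  let S' : Finset (ℕ × ℚ) := S.image Subtype.val
  have hm := Zk_meas S' (fun p hp => by
    obtain ⟨q, -, rfl⟩ := Finset.mem_image.1 hp
    exact ⟨hK _ q.2.1, q.2.2⟩)
  have h1 := hm.comp (Sum.map id (fun p : S => (⟨p.1.1, Finset.mem_image_of_mem _ p.2⟩ : S')) : Fin 1 ⊕ S → _) (by
    refine Function.Injective.sumMap Function.injective_id ?_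
    intro p q hpq
    exact Subtype.ext (Subtype.ext (congrArg (fun z : S' => (z : ℕ × ℚ)) hpq)))
  convert h1 using 1
  funext s
  rcases s with s | s <;> rfl

/-- the first dichotomy for the zeta values -/
theorem zeta_dich1 (hK : ∀ k ∈ K, 2 ≤ k ∧ zt k ∈ clF ({Real.exp 1} ∪ range y)) (t N : Finset (Fin r ⊕ ZN K))
    (hcard : r ≤ t.card) (hd : Disjoint t N) :
    Dx (fun i : t => Sum.elim y (fun p : ZN K => Rk p.1.1 p.1.2) (i : Fin r ⊕ ZN K))
      (fun i : N => Sum.elim y (fun p : ZN K => Rk p.1.1 p.1.2) (i : Fin r ⊕ ZN K)) :=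
  Dx_of (dich_gen (fun p : ZN K => Zk p.1.1 p.1.2) _ y (ZN_meas fun k hk => (hK k hk).1)
    (fun p _ hT hR => Zk_mem (clF_le hT (hK _ p.2.1).2) hR) t N hcard hd)

/-- the second dichotomy for the zeta values -/
theorem zeta_dich2 (hK : ∀ k ∈ K, 2 ≤ k ∧ zt k ∈ clF ({Real.exp 1} ∪ range y)) (t N : Finset (ZN K))
    (hcard : r ≤ t.card + 1) (hd : Disjoint t N) :
    Dy y (fun i : t => Rk (i : ZN K).1.1 (i : ZN K).1.2) (fun i : N => Rk (i : ZN K).1.1 (i : ZN K).1.2) :=
  dich2_gen (fun p : ZN K => Zk p.1.1 p.1.2) (fun p : ZN K => Rk p.1.1 p.1.2) y (ZN_meas fun k hk => (hK k hk).1)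
    (fun p _ hT hR => Zk_mem (clF_le hT (hK _ p.2.1).2) hR) t N hcard hd

/-- the numbers `R_k(x)`, `x ≥ 0`, with `R_k(0) = ζ(k)` -/
noncomputable def RR (p : ℕ × ℚ) : ℝ := if p.2 = 0 then zt p.1 else Rk p.1 p.2

/-- the first dichotomy for a finite set `K` -/
theorem zeta_dichK (K : Finset ℕ) (hK : ∀ k ∈ K, 2 ≤ k) (t N : Finset (ℕ × ℚ))
    (ht : ∀ p ∈ t ∪ N, p.1 ∈ K ∧ 0 ≤ p.2) (hcard : K.card ≤ t.card) (hd : Disjoint t N) :
    Dx (fun i : t => RR i) (fun i : N => RR i) := by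
  classical
  let e := K.equivFin
  let y : Fin K.card → ℝ := fun j => zt (e.symm j)
  have hKy : ∀ k ∈ (K : Set ℕ), 2 ≤ k ∧ zt k ∈ clF ({Real.exp 1} ∪ range y) := by
    intro k hk
    refine ⟨hK k hk, subset_clF _ (Or.inr ⟨e ⟨k, hk⟩, ?_⟩)⟩
    simp [y]
  -- the translation of the names
  let f : (t ∪ N : Finset (ℕ × ℚ)) → Fin K.card ⊕ ZN (K : Set ℕ) := fun p =>
    if h : p.1.2 = 0 then Sum.inl (e ⟨p.1.1, (ht p.1 p.2).1⟩) else
      Sum.inr ⟨p.1, (ht p.1 p.2).1, lt_of_le_of_ne (ht p.1 p.2).2 (Ne.symm h)⟩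
  have hf : Function.Injective f := by
    rintro ⟨p, hp⟩ ⟨q, hq⟩ hpq
    simp only [f] at hpq
    refine Subtype.ext ?_
    split_ifs at hpq with h1 h2 h2
    · have h3 := e.injective (Sum.inl_injective hpq)
      exact Prod.ext (congrArg Subtype.val h3) (h1.trans h2.symm)
    · have h3 := Sum.inr_injective hpq
      exact congrArg (fun z : ZN (K : Set ℕ) => z.1) h3
  have hval : ∀ p, Sum.elim y (fun p : ZN (K : Set ℕ) => Rk p.1.1 p.1.2) (f p) = RR p := by
    rintro ⟨p, hp⟩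
    simp only [f, RR]
    split_ifs with h1
    · simp [y]
    · rfl
  let it : t → (t ∪ N : Finset (ℕ × ℚ)) := fun p => ⟨p.1, Finset.mem_union_left _ p.2⟩
  let iN : N → (t ∪ N : Finset (ℕ × ℚ)) := fun p => ⟨p.1, Finset.mem_union_right _ p.2⟩
  have hit : Function.Injective it := fun a b h => Subtype.ext (congrArg (fun z : (t ∪ N : Finset (ℕ × ℚ)) => z.1) h)
  have hiN : Function.Injective iN := fun a b h => Subtype.ext (congrArg (fun z : (t ∪ N : Finset (ℕ × ℚ)) => z.1) h)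
  let t' : Finset (Fin K.card ⊕ ZN (K : Set ℕ)) := Finset.univ.image fun p : t => f (it p)
  let N' : Finset (Fin K.card ⊕ ZN (K : Set ℕ)) := Finset.univ.image fun p : N => f (iN p)
  have ht'card : t'.card = t.card := by
    show (Finset.univ.image (f ∘ it)).card = t.card
    rw [Finset.card_image_of_injective _ (hf.comp hit), Finset.card_univ, Fintype.card_coe]
  have hd' : Disjoint t' N' := by
    rw [Finset.disjoint_left]
    intro x hx hx'
    obtain ⟨p, -, rfl⟩ := Finset.mem_image.1 hx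
    obtain ⟨q, -, hqp⟩ := Finset.mem_image.1 hx'
    have h1 : iN q = it p := hf hqp
    have h2 : q.1 = p.1 := congrArg (fun z : (t ∪ N : Finset (ℕ × ℚ)) => z.1) h1
    exact Finset.disjoint_left.1 hd p.2 (h2 ▸ q.2)
  have key := zeta_dich1 hKy t' N' (by rw [ht'card]; exact hcard) hd'
  refine key.mono (fun i => (Finset.mem_image.1 i.2).choose) (fun i => ?_)
    (fun p : N => (⟨f (iN p), Finset.mem_image_of_mem _ (Finset.mem_univ _)⟩ : N')) ?_ (fun p => hval _)
  · have h1 := (Finset.mem_image.1 i.2).choose_spec.2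
    have h2 := hval (it (Finset.mem_image.1 i.2).choose)
    rw [h1] at h2
    exact h2.symm
  · intro a b hab
    exact hiN (hf (congrArg Subtype.val hab))

/-- the second dichotomy for a finite set `K` -/
theorem zeta_dichK2 (K : Finset ℕ) (hK : ∀ k ∈ K, 2 ≤ k) (t N : Finset (ℕ × ℚ))
    (ht : ∀ p ∈ t ∪ N, p.1 ∈ K ∧ 0 < p.2) (hcard : K.card ≤ t.card + 1) (hd : Disjoint t N) :
    Dy (fun k : K => zt k) (fun i : t => RR i) (fun i : N => RR i) := by
  classical
  let e := K.equivFin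
  let y : Fin K.card → ℝ := fun j => zt (e.symm j)
  have hKy : ∀ k ∈ (K : Set ℕ), 2 ≤ k ∧ zt k ∈ clF ({Real.exp 1} ∪ range y) := by
    intro k hk
    refine ⟨hK k hk, subset_clF _ (Or.inr ⟨e ⟨k, hk⟩, ?_⟩)⟩
    simp [y]
  let f : (t ∪ N : Finset (ℕ × ℚ)) → ZN (K : Set ℕ) := fun p => ⟨p.1, (ht p.1 p.2).1, (ht p.1 p.2).2⟩
  have hf : Function.Injective f := by
    intro p q hpq
    exact Subtype.ext (congrArg (fun z : ZN (K : Set ℕ) => z.1) hpq)
  have hval : ∀ p, Rk (f p).1.1 (f p).1.2 = RR p := by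
    rintro ⟨p, hp⟩
    simp only [f, RR]
    rw [if_neg (ht p hp).2.ne']
  let it : t → (t ∪ N : Finset (ℕ × ℚ)) := fun p => ⟨p.1, Finset.mem_union_left _ p.2⟩
  let iN : N → (t ∪ N : Finset (ℕ × ℚ)) := fun p => ⟨p.1, Finset.mem_union_right _ p.2⟩
  have hit : Function.Injective it := fun a b h => Subtype.ext (congrArg (fun z : (t ∪ N : Finset (ℕ × ℚ)) => z.1) h)
  have hiN : Function.Injective iN := fun a b h => Subtype.ext (congrArg (fun z : (t ∪ N : Finset (ℕ × ℚ)) => z.1) h)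
  let t' : Finset (ZN (K : Set ℕ)) := Finset.univ.image fun p : t => f (it p)
  let N' : Finset (ZN (K : Set ℕ)) := Finset.univ.image fun p : N => f (iN p)
  have ht'card : t'.card = t.card := by
    show (Finset.univ.image (f ∘ it)).card = t.card
    rw [Finset.card_image_of_injective _ (hf.comp hit), Finset.card_univ, Fintype.card_coe]
  have hd' : Disjoint t' N' := by
    rw [Finset.disjoint_left]
    intro x hx hx'
    obtain ⟨p, -, rfl⟩ := Finset.mem_image.1 hx
    obtain ⟨q, -, hqp⟩ := Finset.mem_image.1 hx'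
    have h1 : iN q = it p := hf hqp
    have h2 : q.1 = p.1 := congrArg (fun z : (t ∪ N : Finset (ℕ × ℚ)) => z.1) h1
    exact Finset.disjoint_left.1 hd p.2 (h2 ▸ q.2)
  have key := zeta_dich2 hKy t' N' (by rw [ht'card]; exact hcard) hd'
  refine key.mono (fun k : K => e k) e.injective (fun k => ?_) (fun i => (Finset.mem_image.1 i.2).choose) (fun i => ?_)
    (fun p : N => (⟨f (iN p), Finset.mem_image_of_mem _ (Finset.mem_univ _)⟩ : N')) ?_ (fun p => hval _)
  · simp [y]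
  · have h1 := (Finset.mem_image.1 i.2).choose_spec.2
    have h2 := hval (it (Finset.mem_image.1 i.2).choose)
    rw [h1] at h2
    exact h2.symm
  · intro a b hab
    exact hiN (hf (congrArg Subtype.val hab))

end Pool.Agent.N778.AF
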