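import Pool.Agent.N778.AF.Base
import Pool.Agent.N778.AF.Zeta
import Pool.Agent.N778.AF.Lio
import Pool.Agent.N778.EM.FinalT

/-!
# The incomplete zeta integrals over the field generated by values of E-functions
-/

set_option autoImplicit false

open Filter Set MeasureTheory

namespace Pool.Agent.N778.AF

open MvPolynomial
open Pool.Agent.N778.EM (MeasF EA_meas_fin meas_of_span)
open Pool.Agent.R352.E (clF mem_clF subset_clF clF_mono clF_le of_pow zt zt_even Mt EE)
open Pool.Agent.R352.T (EA)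
open Pool.Agent.R352.Q

/-- the values `E_{a,l}(x)` -/
noncomputable def Bv (b : ℚ × ℕ × ℚ) : ℝ := EA (b.1 : ℝ) b.2.1 (b.2.2 : ℝ)

/-- the names of the values -/
def BOK (b : ℚ × ℕ × ℚ) : Prop := (b.1 = 0 ∧ b.2.1 = 1 ∨ 0 < b.1 ∧ b.1 < 1 ∧ 1 ≤ b.2.1) ∧ 0 < b.2.2

lemma EA_eq (l : ℕ) (x : ℝ) : EA 0 l x = EE l x := by
  simp [EA, EE]

/-- `e` and the values -/
noncomputable def θB (B : Finset (ℚ × ℕ × ℚ)) : Fin (B.card + 1) → ℝ :=
  Fin.cons (Real.exp 1) (fun i => Bv (B.equivFin.symm i))

/-- the measure -/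
theorem base_meas (B : Finset (ℚ × ℕ × ℚ)) (hB : ∀ b ∈ B, BOK b) (S : Finset (ℕ × ℚ))
    (hS : ∀ p ∈ S, 2 ≤ p.1 ∧ 0 < p.2) :
    MeasF (Sum.elim (θB B) (fun p : S => Zk (p : ℕ × ℚ).1 (((p : ℕ × ℚ).2 : ℚ) : ℝ))) := by
  classical
  -- the pairs `(a, x)`
  let AX : Finset (ℚ × ℚ) := (B.image (fun b => b.1) ∪ {0}) ×ˢ (B.image (fun b => b.2.2) ∪ S.image Prod.snd)
  let J : ℕ := 1 + (B.sup (fun b => b.2.1) + S.sup Prod.fst)
  have hAX : ∀ p ∈ AX, 0 ≤ p.1 ∧ p.1 < 1 ∧ 0 < p.2 := by
    intro p hp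
    obtain ⟨h1, h2⟩ := Finset.mem_product.1 hp
    refine ⟨?_, ?_, ?_⟩
    · rcases Finset.mem_union.1 h1 with h | h
      · obtain ⟨b, hb, hb'⟩ := Finset.mem_image.1 h
        rcases (hB b hb).1 with h | h
        · rw [← hb', h.1]
        · rw [← hb']
          exact h.1.le
      · rw [Finset.mem_singleton.1 h]
    · rcases Finset.mem_union.1 h1 with h | h
      · obtain ⟨b, hb, hb'⟩ := Finset.mem_image.1 h
        rcases (hB b hb).1 with h | h
        · rw [← hb', h.1]
          norm_num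
        · rw [← hb']
          exact h.2.1
      · rw [Finset.mem_singleton.1 h]
        norm_num
    · rcases Finset.mem_union.1 h2 with h | h
      · obtain ⟨b, hb, hb'⟩ := Finset.mem_image.1 h
        rw [← hb']
        exact (hB b hb).2
      · obtain ⟨q, hq, hq'⟩ := Finset.mem_image.1 h
        rw [← hq']
        exact (hS q hq).2
  have hJB : ∀ b ∈ B, b.2.1 < J := by
    intro b hb
    have := Finset.le_sup (f := fun b : ℚ × ℕ × ℚ => b.2.1) hb
    omega
  have hJS : ∀ p ∈ S, p.1 < J := by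
    intro p hp
    have := Finset.le_sup (f := Prod.fst) hp
    omega
  -- the measure for the numbers `E_{a,l}(x)`
  let e := AX.equivFin
  have h0 := EA_meas_fin J (fun i => (e.symm i : ℚ × ℚ).1) (fun i => (e.symm i : ℚ × ℚ).2)
    (fun i j h1 h2 => e.symm.injective (Subtype.ext (Prod.ext h1 h2)))
    (fun i => (hAX _ (e.symm i).2).1) (fun i => (hAX _ (e.symm i).2).2.1) (fun i => (hAX _ (e.symm i).2).2.2)
  have h1 : MeasF (Sum.elim (fun _ : Fin 1 => Real.exp 1)
      (fun p : Fin J × AX => EA ((p.2 : ℚ × ℚ).1 : ℝ) (p.1 + 1) ((p.2 : ℚ × ℚ).2 : ℝ))) := by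
    have h1 := h0.comp (Sum.map id (Prod.map id e) : Fin 1 ⊕ (Fin J × AX) → _)
      (Function.Injective.sumMap Function.injective_id (Function.Injective.prodMap Function.injective_id e.injective))
    convert h1 using 1
    funext s
    rcases s with s | s
    · rfl
    · show _ = EA ((e.symm (e s.2) : ℚ × ℚ).1 : ℝ) (s.1 + 1) ((e.symm (e s.2) : ℚ × ℚ).2 : ℝ)
      rw [Equiv.symm_apply_apply]
      rfl
  -- the second family
  let w : Fin 1 ⊕ (Fin J × AX) → ℝ := Sum.elim (fun _ => Real.exp 1) (fun p =>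
    if (p.2 : ℚ × ℚ).1 = 0 then W p.1 ((p.2 : ℚ × ℚ).2 : ℝ) else
      EA ((p.2 : ℚ × ℚ).1 : ℝ) (p.1 + 1) ((p.2 : ℚ × ℚ).2 : ℝ))
  have h2 : MeasF w := by
    refine meas_of_span h1 w ?_ le_rfl
    have he : Real.exp 1 ∈ clF (range w) := subset_clF _ ⟨Sum.inl 0, rfl⟩
    rintro (j | p)
    · exact he
    · by_cases hp : (p.2 : ℚ × ℚ).1 = 0
      · have hx := (hAX _ p.2.2).2.2
        have hl := p.1.2
        show EA ((p.2 : ℚ × ℚ).1 : ℝ) (p.1 + 1) ((p.2 : ℚ × ℚ).2 : ℝ) ∈ clF (range w)
        rw [hp, Rat.cast_zero, EA_eq]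
        refine mem_of_Zk hx he ?_ (J := J) (by omega) (fun k hk hk' => ?_) (p.1 + 1) (by omega)
        · refine subset_clF _ ⟨Sum.inr (⟨0, by omega⟩, p.2), ?_⟩
          simp only [w, Sum.elim_inr]
          rw [if_pos hp]
          simp [W]
        · refine subset_clF _ ⟨Sum.inr (⟨k - 1, by omega⟩, p.2), ?_⟩
          simp only [w, Sum.elim_inr]
          rw [if_pos hp]
          simp only [W]
          rw [if_neg (by omega), Nat.sub_add_cancel (by omega)]
      · refine subset_clF _ ⟨Sum.inr p, ?_⟩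
        simp only [w, Sum.elim_inr]
        rw [if_neg hp]
  -- the subfamily
  have hmB : ∀ i : Fin B.card, ((B.equivFin.symm i : ℚ × ℕ × ℚ).1, (B.equivFin.symm i : ℚ × ℕ × ℚ).2.2) ∈ AX := by
    intro i
    refine Finset.mem_product.2 ⟨Finset.mem_union_left _ ?_, Finset.mem_union_left _ ?_⟩
    · exact Finset.mem_image_of_mem (fun b : ℚ × ℕ × ℚ => b.1) (B.equivFin.symm i).2
    · exact Finset.mem_image_of_mem (fun b : ℚ × ℕ × ℚ => b.2.2) (B.equivFin.symm i).2
  have hmS : ∀ p : S, ((0 : ℚ), (p : ℕ × ℚ).2) ∈ AX := by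
    intro p
    refine Finset.mem_product.2 ⟨Finset.mem_union_right _ (Finset.mem_singleton_self _),
      Finset.mem_union_right _ (Finset.mem_image_of_mem _ p.2)⟩
  have hl1 : ∀ i : Fin B.card, 1 ≤ (B.equivFin.symm i : ℚ × ℕ × ℚ).2.1 := by
    intro i
    rcases (hB _ (B.equivFin.symm i).2).1 with h | h
    · rw [h.2]
    · exact h.2.2
  let f₀ : Fin (B.card + 1) → Fin 1 ⊕ (Fin J × AX) := Fin.cons (Sum.inl 0) (fun i =>
    Sum.inr (⟨(B.equivFin.symm i : ℚ × ℕ × ℚ).2.1 - 1, by have := hJB _ (B.equivFin.symm i).2; omega⟩, ⟨_, hmB i⟩))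
  let f₁ : S → Fin 1 ⊕ (Fin J × AX) := fun p =>
    Sum.inr (⟨(p : ℕ × ℚ).1 - 1, by have := hJS _ p.2; omega⟩, ⟨_, hmS p⟩)
  have h3 := h2.comp (Sum.elim f₀ f₁) (by
    have key : ∀ (i : Fin B.card) (p : S), f₀ i.succ ≠ f₁ p := by
      intro i p h
      simp only [f₀, f₁, Fin.cons_succ, Sum.inr.injEq, Prod.mk.injEq, Fin.mk.injEq, Subtype.mk.injEq] at h
      have hp := hS p.1 p.2
      have hi := hl1 i
      rcases (hB _ (B.equivFin.symm i).2).1 with h' | h'
      · have := h'.2
        omega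
      · have := h'.1
        rw [h.2.1] at this
        exact lt_irrefl _ this
    rintro (i | p) (j | q) h
    · refine congrArg Sum.inl ?_
      simp only [Sum.elim_inl] at h
      induction i using Fin.cases with
      | zero =>
        induction j using Fin.cases with
        | zero => rfl
        | succ j => simp [f₀] at h
      | succ i =>
        induction j using Fin.cases with
        | zero => simp [f₀] at h
        | succ j =>
          simp only [f₀, Fin.cons_succ, Sum.inr.injEq, Prod.mk.injEq, Fin.mk.injEq, Subtype.mk.injEq] at h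
          refine congrArg Fin.succ (B.equivFin.symm.injective (Subtype.ext ?_))
          have hi := hl1 i
          have hj := hl1 j
          exact Prod.ext h.2.1 (Prod.ext (by omega) h.2.2)
    · exfalso
      simp only [Sum.elim_inl, Sum.elim_inr] at h
      induction i using Fin.cases with
      | zero => simp [f₀, f₁] at h
      | succ i => exact key i q h
    · exfalso
      simp only [Sum.elim_inl, Sum.elim_inr] at h
      induction j using Fin.cases with
      | zero => simp [f₀, f₁] at h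
      | succ j => exact key j p h.symm
    · refine congrArg Sum.inr ?_
      simp only [Sum.elim_inr, f₁, Sum.inr.injEq, Prod.mk.injEq, Fin.mk.injEq, Subtype.mk.injEq] at h
      have hp := hS p.1 p.2
      have hq := hS q.1 q.2
      exact Subtype.ext (Prod.ext (by omega) h.2.2))
  convert h3 using 1
  funext s
  rcases s with i | p
  · simp only [Sum.elim_inl, Function.comp_apply, f₀, θB]
    induction i using Fin.cases with
    | zero => simp [w]
    | succ i =>
      have hi := hl1 i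
      simp only [Fin.cons_succ, w, Sum.elim_inr, Bv]
      rcases (hB _ (B.equivFin.symm i).2).1 with h | h
      · rw [if_pos h.1, h.1, h.2, Rat.cast_zero, EA_eq]
        simp [W]
      · rw [if_neg h.1.ne', Nat.sub_add_cancel hi]
  · have hp := hS p.1 p.2
    simp only [Sum.elim_inr, Function.comp_apply, f₁, w]
    rw [if_pos trivial]
    simp only [W]
    rw [if_neg (by omega), Nat.sub_add_cancel (by omega)]

end Pool.Agent.N778.AF
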