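import Pool.Agent.N778.AF.Big

/-!
# The incomplete zeta integrals over the field generated by values of E-functions: consequences
-/

set_option autoImplicit false

open Filter Set MeasureTheory

namespace Pool.Agent.N778.AF

open MvPolynomial
open Pool.Agent.N778.EM (MeasF)
open Pool.Agent.R352.E (clF mem_clF subset_clF clF_mono clF_le of_pow zt zt_even Mt)
open Pool.Agent.R352.Q

/-- the number `t` is algebraic over `ℚ(θ₀)` or very close to such numbers -/
def UNb {n : ℕ} (θ₀ : Fin n → ℝ) (t : ℝ) : Prop :=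
  ∃ D : ℕ, ∀ k : ℕ, ∀ c : ℝ, 0 < c → ∃ (Q : MvPolynomial (Fin (n + 1)) ℤ) (H : ℝ), Q ≠ 0 ∧ Q.totalDegree ≤ D ∧ 1 ≤ H ∧
    (∀ s, |((Q.coeff s : ℤ) : ℝ)| ≤ H) ∧ H ^ k * |aeval (Fin.cons t θ₀ : Fin (n + 1) → ℝ) Q| < c

theorem Dich.indep {n : ℕ} {θ₀ : Fin n → ℝ} {κ : Type} {t : ℝ} {u : κ → ℝ} (h : Dich θ₀ (fun _ : Unit => t) u)
    (ht : UNb θ₀ t) : AlgebraicIndependent ℚ (Sum.elim θ₀ u) := by
  refine Pool.Agent.N778.EM.algInd_Q ?_
  rw [algebraicIndependent_iff]
  intro P hP
  by_contra hP0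
  obtain ⟨D, hD⟩ := ht
  obtain ⟨k, c, hc, h1⟩ := h (max D P.totalDegree)
  obtain ⟨B, hB, hPB⟩ := exists_ht P
  have hB0 : 0 < B := by linarith
  obtain ⟨Q, H, hQ, hQD, hH, hQH, hQs⟩ := hD k (c / B ^ k) (by positivity)
  have hHB : 1 ≤ H * B := by nlinarith
  have hH0 : 0 < H := by linarith
  rcases h1 (fun _ => Q) P (fun _ => hQ) hP0 (fun _ => hQD.trans (le_max_left _ _)) (le_max_right _ _) (H * B) hHB
    (fun _ s => (hQH s).trans (by nlinarith)) (fun s => (hPB s).trans (by nlinarith)) with ⟨_, h2⟩ | h2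
  · rw [mul_pow, mul_right_comm] at h2
    rw [lt_div_iff₀ (by positivity)] at hQs
    linarith
  · rw [hP, abs_zero, mul_zero] at h2
    linarith

lemma UNb_of_UN {n : ℕ} {θ₀ : Fin (n + 1) → ℝ} (h0 : θ₀ 0 = Real.exp 1) {t : ℝ} (ht : UN t) : UNb θ₀ t := by
  obtain ⟨D, hD⟩ := ht
  refine ⟨D, fun k c hc => ?_⟩
  obtain ⟨Q, H, hQ, hQD, hH, hQH, hQs⟩ := hD k c hc
  let f : Fin 2 → Fin (n + 1 + 1) := ![0, 1]
  have hf : Function.Injective f := by
    intro a b hab
    fin_cases a <;> fin_cases b <;> simp_all [f]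
  refine ⟨MvPolynomial.rename f Q, H, rename_ne hf hQ, (MvPolynomial.totalDegree_rename_le _ _).trans hQD, hH,
    rename_ht hf hH hQH, ?_⟩
  rw [MvPolynomial.aeval_rename]
  have e1 : (Fin.cons t θ₀ : Fin (n + 1 + 1) → ℝ) ∘ f = ![t, Real.exp 1] := by
    funext j
    fin_cases j
    · rfl
    · show (Fin.cons t θ₀ : Fin (n + 1 + 1) → ℝ) 1 = Real.exp 1
      rw [← h0]
      rfl
  rw [e1, mul_comm]
  rwa [lt_div_iff₀ (by positivity)] at hQs

lemma UNb_of_mem {n : ℕ} {θ₀ : Fin n → ℝ} {t : ℝ} (ht : t ∈ clF (range θ₀)) : UNb θ₀ t := by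
  have h1 : ¬ AlgebraicIndependent ℤ (Fin.cons t θ₀ : Fin (n + 1) → ℝ) := by
    intro h
    have h2 := Pool.Agent.N778.EM.algInd_Q h
    have h3 := Pool.Agent.R352.E.card_le_card h2 (y := θ₀) (fun b => by
      induction b using Fin.cases with
      | zero => exact ht
      | succ b => exact subset_clF _ ⟨b, by simp⟩)
    simp at h3
  rw [algebraicIndependent_iff] at h1
  push Not at h1
  obtain ⟨Q, hQ, hQ0⟩ := h1
  obtain ⟨B, hB, hQB⟩ := exists_ht Q
  refine ⟨Q.totalDegree, fun k c hc => ⟨Q, B, hQ0, le_rfl, hB, hQB, ?_⟩⟩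
  rw [hQ, abs_zero, mul_zero]
  exact hc

/-- the names -/
abbrev BN : Type := Fin 1 ⊕ (ℕ × ℚ)

/-- the valid names -/
def NV : BN → Prop
  | .inl _ => True
  | .inr p => (Even p.1 ∧ 2 ≤ p.1) ∧ 0 < p.2

/-- the values -/
noncomputable def VV : BN → ℝ := Sum.elim (fun _ => Real.pi) (fun p => Rk p.1 p.2)

theorem big_dich (B : Finset (ℚ × ℕ × ℚ)) (hB : ∀ b ∈ B, BOK b) (i : BN) (N : Finset BN) (hi : NV i)
    (hN : ∀ j ∈ N, NV j) (hiN : i ∉ N) : Dich (θB B) (fun _ : Unit => VV i) (fun j : N => VV j) := by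
  classical
  have key := gen1 (θB B) (fun p : ℕ × ℚ => (Even p.1 ∧ 2 ≤ p.1) ∧ 0 < p.2) (fun p => Zk p.1 p.2) (fun p => Rk p.1 p.2)
    (fun _ : Fin 1 => Real.pi) (fun S hS => base_meas B hB S fun p hp => ⟨(hS p hp).1.2, (hS p hp).2⟩)
    (fun p hp T hT hR => by
      obtain ⟨⟨⟨k, hk⟩, h2⟩, -⟩ := hp
      refine Zk_mem ?_ hR
      have h3 : p.1 = 2 * k := by omega
      rw [h3]
      exact zt_even (hT (Or.inr ⟨0, rfl⟩)) k (by omega)) {i} N (by
      rintro p (hp | hp)
      · rw [← Finset.mem_singleton.1 hp] at hi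
        exact hi
      · exact hN _ hp) (by simp) (Finset.disjoint_singleton_left.2 hiN)
  refine key.mono (fun _ => ()) (fun j => ?_) id Function.injective_id (fun _ => rfl)
  have h1 : (j : BN) = i := Finset.mem_singleton.1 j.2
  show VV i = Sum.elim _ _ (j : BN)
  rw [h1]
  rfl

/-- the indices -/
noncomputable def eB (B : Finset (ℚ × ℕ × ℚ)) : Option B ≃ Fin (B.card + 1) :=
  (Equiv.optionCongr B.equivFin).trans (finSuccEquiv B.card).symm

lemma θB_eB (B : Finset (ℚ × ℕ × ℚ)) : θB B ∘ eB B = fun o : Option B => o.elim (Real.exp 1) (fun b => Bv b) := by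
  funext o
  cases o with
  | none => simp [eB, θB]
  | some b => simp [eB, θB]

/-- the generators of the big field -/
def MS : Set ℝ := range fun o : Option {b // BOK b} => o.elim (Real.exp 1) (fun b => Bv b)

theorem big_fin (i : BN) (hi : NV i) (h : VV i ∈ clF MS ∨ UN (VV i)) (B : Finset (ℚ × ℕ × ℚ)) (hB : ∀ b ∈ B, BOK b)
    (N : Finset BN) (hN : ∀ j ∈ N, NV j) (hiN : i ∉ N) :
    AlgebraicIndependent ℚ (Sum.elim (fun j : N => VV j) (fun o : Option B => o.elim (Real.exp 1) (fun b => Bv b))) := by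
  classical
  have conv : ∀ B' : Finset (ℚ × ℕ × ℚ), AlgebraicIndependent ℚ (Sum.elim (θB B') (fun j : N => VV j)) →
      AlgebraicIndependent ℚ (Sum.elim (fun j : N => VV j)
        (fun o : Option B' => o.elim (Real.exp 1) (fun b => Bv b))) := by
    intro B' h1
    have h2 := h1.comp (Sum.elim Sum.inr (Sum.inl ∘ eB B') : N ⊕ Option B' → Fin (B'.card + 1) ⊕ N) (by
      rintro (a | a) (b | b) hab
      · simpa using hab
      · simp at hab
      · simp at hab
      · simpa using hab)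
    convert h2 using 1
    funext s
    rcases s with s | s
    · rfl
    · exact (congrFun (θB_eB B') s).symm
  rcases h with h | h
  · obtain ⟨I, hI, hIfin, -, hIi⟩ := Matroid.exists_mem_finite_closure_of_mem_closure (M := Mt) h
    obtain ⟨F, hF⟩ : ∃ F : Finset {b // BOK b}, I ⊆ {Real.exp 1} ∪ (fun b : {b // BOK b} => Bv b) '' F := by
      have h1 : ∀ z : I, ∃ F : Finset {b // BOK b}, (z : ℝ) ∈ {Real.exp 1} ∪ (fun b : {b // BOK b} => Bv b) '' F := by
        rintro ⟨z, hz⟩
        obtain ⟨o, ho⟩ := hI hz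
        cases o with
        | none => exact ⟨∅, Or.inl ho.symm⟩
        | some b => exact ⟨{b}, Or.inr ⟨b, by simp, ho⟩⟩
      choose F hF using h1
      have := hIfin.fintype
      refine ⟨Finset.univ.biUnion F, fun z hz => ?_⟩
      rcases hF ⟨z, hz⟩ with h2 | ⟨b, hb, h2⟩
      · exact Or.inl h2
      · exact Or.inr ⟨b, Finset.mem_coe.2 (Finset.mem_biUnion.2 ⟨_, Finset.mem_univ _, hb⟩), h2⟩
    let B' : Finset (ℚ × ℕ × ℚ) := B ∪ F.image Subtype.val
    have hB' : ∀ b ∈ B', BOK b := by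
      intro b hb
      rcases Finset.mem_union.1 hb with hb | hb
      · exact hB b hb
      · obtain ⟨b', -, rfl⟩ := Finset.mem_image.1 hb
        exact b'.2
    have h2 : VV i ∈ clF (range (θB B')) := by
      refine (clF_le ?_ : clF I ≤ _) hIi
      intro z hz
      rcases hF hz with h3 | ⟨b, hb, h3⟩
      · refine subset_clF _ ⟨0, ?_⟩
        rw [mem_singleton_iff.1 h3]
        rfl
      · have hbB : (b : ℚ × ℕ × ℚ) ∈ B' := Finset.mem_union_right _ (Finset.mem_image_of_mem _ (Finset.mem_coe.1 hb))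
        refine subset_clF _ ⟨eB B' (some ⟨b, hbB⟩), ?_⟩
        have h4 := congrFun (θB_eB B') (some ⟨b, hbB⟩)
        simp only [Function.comp_apply, Option.elim] at h4
        rw [h4]
        exact h3
    have h3 := conv B' ((big_dich B' hB' i N hi hN hiN).indep (UNb_of_mem h2))
    have h4 := h3.comp (Sum.map id (Option.map fun b : B => (⟨b.1, Finset.mem_union_left _ b.2⟩ : B')) :
      N ⊕ Option B → _) (by
      refine Function.Injective.sumMap Function.injective_id (Option.map_injective ?_)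
      intro a b hab
      exact Subtype.ext (congrArg (fun z : B' => (z : ℚ × ℕ × ℚ)) hab))
    convert h4 using 1
    funext s
    rcases s with s | s
    · rfl
    · cases s <;> rfl
  · exact conv B ((big_dich B hB i N hi hN hiN).indep (UNb_of_UN rfl h))

/-- **the independence over the big field** -/
theorem big_all (i : BN) (hi : NV i) (h : VV i ∈ clF MS ∨ UN (VV i)) :
    AlgebraicIndependent (IntermediateField.adjoin ℚ MS) (fun j : {j // NV j ∧ j ≠ i} => VV j) := by
  classical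
  have key : AlgebraicIndependent ℚ (Sum.elim (fun j : {j // NV j ∧ j ≠ i} => VV j)
      (fun o : Option {b // BOK b} => o.elim (Real.exp 1) (fun b => Bv b))) := by
    refine algebraicIndependent_of_finite_type fun t ht => ?_
    let N : Finset BN := ht.toFinset.biUnion fun s => Sum.elim (fun j => {j.1}) (fun _ => ∅) s
    let B : Finset (ℚ × ℕ × ℚ) := ht.toFinset.biUnion fun s =>
      Sum.elim (fun _ => ∅) (fun o : Option {b // BOK b} => o.elim ∅ (fun b => {b.1})) s
    have hN : ∀ j : {j // NV j ∧ j ≠ i}, Sum.inl j ∈ t → j.1 ∈ N := fun j hj =>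
      Finset.mem_biUnion.2 ⟨Sum.inl j, ht.mem_toFinset.2 hj, by simp⟩
    have hB : ∀ b : {b // BOK b}, Sum.inr (some b) ∈ t → b.1 ∈ B := fun b hb =>
      Finset.mem_biUnion.2 ⟨Sum.inr (some b), ht.mem_toFinset.2 hb, by simp⟩
    have hN' : ∀ j ∈ N, NV j ∧ j ≠ i := by
      intro j hj
      obtain ⟨s, -, hs⟩ := Finset.mem_biUnion.1 hj
      rcases s with s | s
      · simp only [Sum.elim_inl, Finset.mem_singleton] at hs
        rw [hs]
        exact s.2
      · simp at hs
    have hB' : ∀ b ∈ B, BOK b := by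
      intro b hb
      obtain ⟨s, -, hs⟩ := Finset.mem_biUnion.1 hb
      rcases s with s | s
      · simp at hs
      · cases s with
        | none => simp at hs
        | some s =>
          simp only [Sum.elim_inr, Option.elim, Finset.mem_singleton] at hs
          rw [hs]
          exact s.2
    have h1 := big_fin i hi h B hB' N (fun j hj => (hN' j hj).1) (fun hiN => (hN' i hiN).2 rfl)
    let g : t → N ⊕ Option B := fun s =>
      match s with
      | ⟨Sum.inl j, hj⟩ => Sum.inl ⟨j.1, hN j hj⟩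
      | ⟨Sum.inr none, _⟩ => Sum.inr none
      | ⟨Sum.inr (some b), hb⟩ => Sum.inr (some ⟨b.1, hB b hb⟩)
    have hg : Function.Injective g := by
      rintro ⟨a | (_ | a), ha⟩ ⟨b | (_ | b), hb⟩ hab
      · simp only [g, Sum.inl.injEq, Subtype.mk.injEq] at hab
        exact Subtype.ext (congrArg Sum.inl (Subtype.ext hab))
      · simp [g] at hab
      · simp [g] at hab
      · simp [g] at hab
      · rfl
      · simp [g] at hab
      · simp [g] at hab
      · simp [g] at hab
      · simp only [g, Sum.inr.injEq, Option.some.injEq, Subtype.mk.injEq] at hab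
        exact Subtype.ext (congrArg (fun z => Sum.inr (some z)) (Subtype.ext hab))
    have h2 := h1.comp g hg
    convert h2 using 1
    funext s
    rcases s with ⟨a | (_ | a), ha⟩ <;> rfl
  have h3 := (AlgebraicIndependent.sumElim_iff.1 key).2
  exact IntermediateField.algebraicIndependent_adjoin_iff.2 h3

end Pool.Agent.N778.AF
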