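import Mathlib
import Pool.Agent.N778.EM.Fam

/-!
# Robinson's field of asymptotic numbers at a sequence of scales

For a sequence `h l → ∞` of scales the *tame* sequences of real numbers (at most a power of `h l`) modulo the negligible
ones (smaller than all powers of `1 / h l`), with respect to an ultrafilter, form a field `AK`. The classes of the tame
sequences of integers form a subring `base`. A family of real numbers with a measure of algebraic independence
(polynomial in the height) is algebraically independent over `base`.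
-/

set_option autoImplicit false

open Filter

namespace Pool.Agent.N778.AF

open MvPolynomial

/-- a sequence of scales tending to infinity -/
structure Scale where
  h : ℕ → ℝ
  hh : ∀ l : ℕ, (l : ℝ) + 1 ≤ h l

/-- the ultrafilter -/
noncomputable abbrev UU : Ultrafilter ℕ := hyperfilter ℕ

variable (σ : Scale)

lemma Scale.one_le (l : ℕ) : 1 ≤ σ.h l := by
  have h1 := σ.hh l
  have h2 : (0 : ℝ) ≤ l := Nat.cast_nonneg l
  linarith

lemma Scale.pos (l : ℕ) : 0 < σ.h l := lt_of_lt_of_le one_pos (σ.one_le l)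

lemma ev_of_ge {p : ℕ → Prop} (N : ℕ) (hp : ∀ l, N ≤ l → p l) : ∀ᶠ l in (UU : Filter ℕ), p l := by
  have h1 : ∀ᶠ l in (atTop : Filter ℕ), p l := Filter.eventually_atTop.2 ⟨N, hp⟩
  have h2 : (UU : Filter ℕ) ≤ atTop := by
    rw [← Nat.cofinite_eq_atTop]
    exact hyperfilter_le_cofinite
  exact h2 h1

lemma ev_ge (A : ℝ) : ∀ᶠ l in (UU : Filter ℕ), A ≤ σ.h l := by
  obtain ⟨N, hN⟩ := exists_nat_ge A
  refine ev_of_ge N fun l hl => ?_
  have h1 := σ.hh l
  have h2 : (N : ℝ) ≤ l := by exact_mod_cast hl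
  linarith

/-- the tame sequences -/
def tame : Subring (ℕ → ℝ) where
  carrier := {x | ∃ κ : ℕ, ∀ᶠ l in (UU : Filter ℕ), |x l| ≤ σ.h l ^ κ}
  mul_mem' := by
    rintro x y ⟨a, ha⟩ ⟨b, hb⟩
    refine ⟨a + b, ?_⟩
    filter_upwards [ha, hb] with l h1 h2
    rw [Pi.mul_apply, abs_mul, pow_add]
    exact mul_le_mul h1 h2 (abs_nonneg _) (by have := σ.pos l; positivity)
  one_mem' := ⟨0, Eventually.of_forall fun l => by simp⟩
  add_mem' := by
    rintro x y ⟨a, ha⟩ ⟨b, hb⟩
    refine ⟨max a b + 1, ?_⟩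
    filter_upwards [ha, hb, ev_ge σ 2] with l h1 h2 h3
    have h4 : σ.h l ^ a ≤ σ.h l ^ (max a b) := pow_le_pow_right₀ (σ.one_le l) (le_max_left _ _)
    have h5 : σ.h l ^ b ≤ σ.h l ^ (max a b) := pow_le_pow_right₀ (σ.one_le l) (le_max_right _ _)
    have h6 : 0 < σ.h l ^ (max a b) := pow_pos (σ.pos l) _
    calc |x l + y l| ≤ |x l| + |y l| := abs_add_le _ _
      _ ≤ σ.h l ^ (max a b) * 2 := by linarith
      _ ≤ σ.h l ^ (max a b) * σ.h l := mul_le_mul_of_nonneg_left h3 h6.le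
      _ = σ.h l ^ (max a b + 1) := (pow_succ _ _).symm
  zero_mem' := ⟨0, Eventually.of_forall fun l => by simp⟩
  neg_mem' := by
    rintro x ⟨a, ha⟩
    exact ⟨a, by simpa using ha⟩

/-- negligible sequences -/
def Neg (x : ℕ → ℝ) : Prop := ∀ k : ℕ, ∀ᶠ l in (UU : Filter ℕ), |x l| * σ.h l ^ k ≤ 1

/-- the ideal of the negligible sequences -/
def negl : Ideal (tame σ) where
  carrier := {x | Neg σ x.1}
  add_mem' := by
    rintro x y hx hy k
    filter_upwards [hx (k + 1), hy (k + 1), ev_ge σ 2] with l h1 h2 h3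
    have h4 : 0 < σ.h l ^ k := pow_pos (σ.pos l) _
    have h5 : (|x.1 l| + |y.1 l|) * σ.h l ^ k * σ.h l ≤ 2 := by
      rw [pow_succ] at h1 h2
      nlinarith
    have h6 : (|x.1 l| + |y.1 l|) * σ.h l ^ k * 2 ≤ 2 := by
      refine le_trans (mul_le_mul_of_nonneg_left h3 (by positivity)) h5
    have h7 : |(x + y).1 l| ≤ |x.1 l| + |y.1 l| := abs_add_le _ _
    have h8 := mul_le_mul_of_nonneg_right h7 h4.le
    linarith
  zero_mem' := by
    intro k
    exact Eventually.of_forall fun l => by simp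
  smul_mem' := by
    rintro c x hx k
    obtain ⟨a, ha⟩ := c.2
    filter_upwards [hx (k + a), ha] with l h1 h2
    have h4 : 0 < σ.h l ^ k := pow_pos (σ.pos l) _
    have h3 : |(c • x).1 l| = |c.1 l| * |x.1 l| := abs_mul _ _
    rw [h3]
    calc |c.1 l| * |x.1 l| * σ.h l ^ k ≤ σ.h l ^ a * |x.1 l| * σ.h l ^ k := by gcongr
      _ = |x.1 l| * σ.h l ^ (k + a) := by rw [pow_add]; ring
      _ ≤ 1 := h1

lemma mem_negl {x : tame σ} : x ∈ negl σ ↔ Neg σ x.1 := Iff.rfl

instance negl_max : (negl σ).IsMaximal := by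
  rw [Ideal.isMaximal_iff]
  constructor
  · intro h
    have h1 := (mem_negl σ).1 h 1
    obtain ⟨l, hl1, hl2⟩ := (h1.and (ev_ge σ 2)).exists
    simp at hl1
    linarith
  · intro J x hJ hx hxJ
    have hx' : ¬ ∀ k : ℕ, ∀ᶠ l in (UU : Filter ℕ), |x.1 l| * σ.h l ^ k ≤ 1 := hx
    push Not at hx'
    obtain ⟨k, hk⟩ := hx'
    have hk' : ∀ᶠ l in (UU : Filter ℕ), ¬ |x.1 l| * σ.h l ^ k ≤ 1 := by
      filter_upwards [hk] with l hl
      exact not_le.2 hl
    have hy : (fun l => (x.1 l)⁻¹) ∈ tame σ := by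
      refine ⟨k, ?_⟩
      filter_upwards [hk'] with l hl
      push Not at hl
      have h4 : 0 < σ.h l ^ k := pow_pos (σ.pos l) _
      have h5 : 0 < |x.1 l| := by
        by_contra hc
        have : |x.1 l| = 0 := le_antisymm (not_lt.1 hc) (abs_nonneg _)
        rw [this, zero_mul] at hl
        linarith
      rw [abs_inv, inv_le_comm₀ h5 h4, inv_le_iff_one_le_mul₀ h4]
      linarith
    have h1 : (⟨_, hy⟩ : tame σ) * x - 1 ∈ negl σ := by
      intro m
      filter_upwards [hk'] with l hl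
      have h5 : x.1 l ≠ 0 := by
        intro hc
        rw [hc, abs_zero, zero_mul] at hl
        exact hl zero_le_one
      have h6 : ((⟨_, hy⟩ : tame σ) * x - 1).1 l = 0 := by
        show (x.1 l)⁻¹ * x.1 l - 1 = 0
        rw [inv_mul_cancel₀ h5, sub_self]
      rw [h6]
      simp
    have h2 : (1 : tame σ) = (⟨_, hy⟩ : tame σ) * x - ((⟨_, hy⟩ : tame σ) * x - 1) := by ring
    rw [h2]
    exact J.sub_mem (J.mul_mem_left _ hxJ) (hJ h1)

/-- the field of asymptotic numbers -/
def AK : Type := tame σ ⧸ negl σ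

noncomputable instance : Field (AK σ) := Ideal.Quotient.field (negl σ)

/-- the class of a tame sequence -/
noncomputable def mk : tame σ →+* AK σ := Ideal.Quotient.mk (negl σ)

lemma mk_eq_zero {x : tame σ} : mk σ x = 0 ↔ Neg σ x.1 := Ideal.Quotient.eq_zero_iff_mem

/-- constant sequences are tame -/
lemma const_tame (a : ℝ) : (fun _ => a) ∈ tame σ := by
  refine ⟨1, ?_⟩
  filter_upwards [ev_ge σ |a|] with l hl
  simpa using hl

/-- the constant sequences -/
def cT : ℝ →+* tame σ where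
  toFun a := ⟨fun _ => a, const_tame σ a⟩
  map_one' := rfl
  map_mul' _ _ := rfl
  map_zero' := rfl
  map_add' _ _ := rfl

/-- the embedding of the real numbers -/
noncomputable def cst : ℝ →+* AK σ := (mk σ).comp (cT σ)

/-- the tame sequences of integers -/
def tameZ : Subring (ℕ → ℤ) := (tame σ).comap ((Int.castRingHom ℝ).compLeft ℕ)

/-- their classes -/
noncomputable def baseHom : tameZ σ →+* AK σ :=
  (mk σ).comp (((Int.castRingHom ℝ).compLeft ℕ).restrict (tameZ σ) (tame σ) (fun _ hx => hx))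

lemma baseHom_eq_zero {n : tameZ σ} (h : baseHom σ n = 0) : ∀ᶠ l in (UU : Filter ℕ), n.1 l = 0 := by
  have h1 : Neg σ (fun l => ((n.1 l : ℤ) : ℝ)) := (mk_eq_zero σ).1 h
  filter_upwards [h1 1, ev_ge σ 2] with l hl h2
  by_contra hne
  have h3 : (1 : ℝ) ≤ |((n.1 l : ℤ) : ℝ)| := by
    rw [← Int.cast_abs]
    exact_mod_cast Int.one_le_abs hne
  rw [pow_one] at hl
  have h4 : 2 ≤ |((n.1 l : ℤ) : ℝ)| * σ.h l := by
    calc (2 : ℝ) = 1 * 2 := by ring
      _ ≤ |((n.1 l : ℤ) : ℝ)| * σ.h l := mul_le_mul h3 h2 (by norm_num) (by linarith)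
  linarith

/-- the classes of the tame sequences of integers -/
noncomputable def base : Subring (AK σ) := (baseHom σ).range

noncomputable instance instAlg : Algebra (base σ) (AK σ) := (base σ).subtype.toAlgebra

instance : FaithfulSMul (base σ) (AK σ) := (faithfulSMul_iff_algebraMap_injective _ _).2 Subtype.val_injective

variable {ι : Type}

/-- the polynomial over `base` of a family of coefficients -/
noncomputable def pz (n : (ι →₀ ℕ) → tameZ σ) (T : Finset (ι →₀ ℕ)) : MvPolynomial ι (base σ) :=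
  ∑ s ∈ T, monomial s (⟨baseHom σ (n s), ⟨n s, rfl⟩⟩ : base σ)

/-- the polynomial of index `l` -/
noncomputable def Pl {σ : Scale} (n : (ι →₀ ℕ) → tameZ σ) (T : Finset (ι →₀ ℕ)) (l : ℕ) : MvPolynomial ι ℤ :=
  ∑ s ∈ T, monomial s ((n s).1 l)

lemma aeval_pz (n : (ι →₀ ℕ) → tameZ σ) (T : Finset (ι →₀ ℕ)) (u : ι → ℝ) :
    aeval (fun i => cst σ (u i)) (pz σ n T) = 0 ↔ Neg σ (fun l => aeval u (Pl n T l)) := by
  have h1 : ∀ s : ι →₀ ℕ, (fun l => (((n s).1 l : ℤ) : ℝ) * s.prod fun i k => u i ^ k) ∈ tame σ := by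
    intro s
    exact (tame σ).mul_mem (n s).2 (const_tame σ _)
  have h2 : (fun l => aeval u (Pl n T l)) = (∑ s ∈ T, (⟨_, h1 s⟩ : tame σ)).1 := by
    funext l
    rw [Pl, map_sum]
    have h3 : (∑ s ∈ T, (⟨_, h1 s⟩ : tame σ)).1 = ∑ s ∈ T, (fun l => (((n s).1 l : ℤ) : ℝ) * s.prod fun i k => u i ^ k) := by
      rw [AddSubmonoidClass.coe_finsetSum]
    rw [h3, Finset.sum_apply]
    refine Finset.sum_congr rfl fun s _ => ?_
    rw [MvPolynomial.aeval_monomial]
    rfl
  rw [h2, ← mk_eq_zero, map_sum, pz, map_sum]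
  have h4 : ∀ s ∈ T, aeval (fun i => cst σ (u i)) (monomial s (⟨baseHom σ (n s), ⟨n s, rfl⟩⟩ : base σ)) =
      mk σ ⟨_, h1 s⟩ := by
    intro s _
    rw [MvPolynomial.aeval_monomial]
    have h5 : (s.prod fun i k => cst σ (u i) ^ k) = cst σ (s.prod fun i k => u i ^ k) := by
      rw [Finsupp.prod, Finsupp.prod, map_prod]
      exact Finset.prod_congr rfl fun i _ => (map_pow _ _ _).symm
    rw [h5]
    show baseHom σ (n s) * cst σ _ = _
    rw [show cst σ (s.prod fun i k => u i ^ k) = mk σ (cT σ (s.prod fun i k => u i ^ k)) from rfl]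
    show mk σ _ * mk σ _ = _
    rw [← map_mul]
    rfl
  rw [Finset.sum_congr rfl h4]

end Pool.Agent.N778.AF
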