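import Pool.Agent.N778.AF.Sim
import Pool.Agent.N778.AF.Zeta

/-!
# The second dichotomy: consequences, and the numbers `π`, `ζ(3)`
-/

set_option autoImplicit false

open Filter Set MeasureTheory

namespace Pool.Agent.N778.AF

open MvPolynomial
open Pool.Agent.N778.EM (MeasF)
open Pool.Agent.R352.E (clF mem_clF subset_clF clF_mono clF_le of_pow zt)
open Pool.Agent.R352.Q

/-- Liouville numbers are very well approximable -/
lemma UN_of_liouville' {t : ℝ} (h : Liouville t) : UN t := by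
  refine ⟨1, fun k c hc => ?_⟩
  set B : ℝ := |t| + 2 with hB
  have hB0 : 0 < B := by positivity
  have hB1 : 1 ≤ B := by
    have := abs_nonneg t
    linarith
  obtain ⟨m, hm⟩ := pow_unbounded_of_one_lt (B ^ k / c) (one_lt_two (α := ℝ))
  obtain ⟨a, b, hb, -, hab⟩ := h (k + 1 + m)
  have hb1 : (1 : ℝ) < b := by exact_mod_cast hb
  have hb0 : (0 : ℝ) < b := by linarith
  have hb2 : (2 : ℝ) ≤ b := by exact_mod_cast hb
  have hsmall : |(b : ℝ) * t - a| < 1 / (b : ℝ) ^ (k + m) := by
    have e1 : (b : ℝ) * t - a = b * (t - a / b) := by field_simp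
    rw [e1, abs_mul, abs_of_pos hb0]
    calc (b : ℝ) * |t - a / b| < b * (1 / (b : ℝ) ^ (k + 1 + m)) := mul_lt_mul_of_pos_left hab hb0
      _ = 1 / (b : ℝ) ^ (k + m) := by
        rw [show k + 1 + m = (k + m) + 1 by ring, pow_succ]
        field_simp
  have ha : |(a : ℝ)| ≤ B * b := by
    have h1 : |(a : ℝ)| ≤ |(b : ℝ) * t| + |(b : ℝ) * t - a| := by
      have := abs_sub_abs_le_abs_sub ((a : ℝ)) (b * t)
      rw [abs_sub_comm] at this
      linarith
    have h2 : 1 / (b : ℝ) ^ (k + m) ≤ 1 := by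
      rw [div_le_one (by positivity)]
      exact one_le_pow₀ hb1.le
    have h3 : |(b : ℝ) * t| = b * |t| := by rw [abs_mul, abs_of_pos hb0]
    rw [h3] at h1
    rw [hB]
    nlinarith
  refine ⟨QL b a, B * b, QL_ne (by omega) a, QL_deg b a, by nlinarith, fun s => QL_coeff b a s ?_ ha, ?_⟩
  · rw [abs_of_pos hb0]
    nlinarith
  · rw [QL_eval]
    refine hsmall.trans_le ?_
    rw [div_le_div_iff₀ (by positivity) (by positivity), one_mul, mul_pow, pow_add]
    have h4 : (2 : ℝ) ^ m ≤ (b : ℝ) ^ m := pow_le_pow_left₀ (by norm_num) hb2 m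
    have h5 : B ^ k ≤ c * (b : ℝ) ^ m := by
      rw [div_lt_iff₀ hc] at hm
      nlinarith
    have h6 : (0 : ℝ) < (b : ℝ) ^ k := by positivity
    nlinarith

/-- the case of a relation between `e` and the constants -/
theorem Dy.indep {ρ κ : Type} {y : ρ → ℝ} {t : ℝ} {u : κ → ℝ} (h : Dy y (fun _ : Unit => t) u)
    (hy : ¬ AlgebraicIndependent ℚ (fun o : Option ρ => o.elim (Real.exp 1) y)) (ht : UN t) :
    AlgebraicIndependent ℚ (fun o : Option κ => o.elim (Real.exp 1) u) := by
  have hy' : ¬ AlgebraicIndependent ℤ (fun o : Option ρ => o.elim (Real.exp 1) y) := fun h0 =>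
    hy (Pool.Agent.N778.EM.algInd_Q h0)
  rw [algebraicIndependent_iff] at hy'
  push Not at hy'
  obtain ⟨F, hF, hF0⟩ := hy'
  refine Pool.Agent.N778.EM.algInd_Q ?_
  rw [algebraicIndependent_iff]
  intro P hP
  by_contra hP0
  obtain ⟨D, hD⟩ := ht
  obtain ⟨k, c, hc, h1⟩ := h (max (max D P.totalDegree) F.totalDegree)
  obtain ⟨B₁, hB₁, hPB⟩ := exists_ht P
  obtain ⟨B₂, hB₂, hFB⟩ := exists_ht F
  set B := B₁ * B₂ with hB
  have hB1 : 1 ≤ B := by nlinarith
  have hB0 : 0 < B := by linarith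
  obtain ⟨Q, H, hQ, hQD, hH, hQH, hQs⟩ := hD k (c / B ^ k) (by positivity)
  have hHB : 1 ≤ H * B := by nlinarith
  have hH0 : 0 < H := by linarith
  have hB₁' : B₁ ≤ H * B := by
    have : B₁ ≤ B := by nlinarith
    nlinarith
  have hB₂' : B₂ ≤ H * B := by
    have : B₂ ≤ B := by nlinarith
    nlinarith
  rcases h1 F (fun _ => Q) P hF0 (fun _ => hQ) hP0 (le_max_right _ _)
    (fun _ => hQD.trans ((le_max_left _ _).trans (le_max_left _ _))) ((le_max_right _ _).trans (le_max_left _ _))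
    (H * B) hHB (fun s => (hFB s).trans hB₂') (fun _ s => (hQH s).trans (by nlinarith))
    (fun s => (hPB s).trans hB₁') with h0 | ⟨_, h2⟩ | h2
  · rw [hF, abs_zero] at h0
    have : 0 < c / (H * B) ^ k := by positivity
    linarith
  · have h3 : c / (H * B) ^ k = c / B ^ k / H ^ k := by
      rw [mul_pow]
      field_simp
    rw [h3] at h2
    linarith
  · rw [hP, abs_zero] at h2
    have : 0 < c / (H * B) ^ k := by positivity
    linarith

end Pool.Agent.N778.AF
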