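import Pool.Agent.N778.AF.Base
import Pool.Agent.N778.AF.Tri
import Pool.Agent.N778.EM.FinalT

/-!
# The general dichotomies for incomplete gamma values
-/

set_option autoImplicit false

open Filter Set MeasureTheory

namespace Pool.Agent.N778.AF

open MvPolynomial
open Pool.Agent.N778.EM (MeasF EA_meas_S)
open Pool.Agent.R352.E (clF mem_clF subset_clF clF_mono clF_le of_pow)
open Pool.Agent.R352.T (EA gu EA_one_mem)
open Pool.Agent.N13.PE (GH J Z_mem)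

variable {r : ℕ} {y : Fin r → ℝ} {A : Set ℚ}

lemma range_e (y : Fin r → ℝ) : range (fun _ : Fin 1 => Real.exp 1) ∪ range y = {Real.exp 1} ∪ range y := by
  rw [range_const]

/-- the numbers `J_a(x)`: the first dichotomy -/
theorem J_gen1 (h : GH y A) (t N : Finset (Fin r ⊕ (ℚ × ℚ)))
    (hv : ∀ p, Sum.inr p ∈ t ∨ Sum.inr p ∈ N → p.1 ∈ A ∧ 0 < p.2) (hcard : r ≤ t.card) (hd : Disjoint t N) :
    Dx (fun i : t => Sum.elim y (fun p : ℚ × ℚ => J p.1 p.2) (i : Fin r ⊕ (ℚ × ℚ)))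
      (fun i : N => Sum.elim y (fun p : ℚ × ℚ => J p.1 p.2) (i : Fin r ⊕ (ℚ × ℚ))) :=
  Dx_of (gen1 _ (fun p : ℚ × ℚ => p.1 ∈ A ∧ 0 < p.2) (fun p => EA p.1 1 p.2) _ y
    (fun S hS => EA_meas_S S fun p hp => ⟨(h _ (hS p hp).1).1.1.le, (h _ (hS p hp).1).1.2, (hS p hp).2⟩)
    (fun p hp T hT hR => by
      rw [range_e] at hT
      obtain ⟨⟨h0, h1⟩, h2, h3⟩ := h _ hp.1
      exact Z_mem h0 h1 hp.2 (hT (Or.inl rfl)) (clF_le hT h2) (clF_le hT h3) hR) t N hv hcard hd)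

/-- the numbers `J_a(x)`: the second dichotomy -/
theorem J_gen2 (h : GH y A) (t N : Finset (ℚ × ℚ)) (hv : ∀ p, p ∈ t ∨ p ∈ N → p.1 ∈ A ∧ 0 < p.2)
    (hcard : r ≤ t.card + 1) (hd : Disjoint t N) :
    Dy y (fun p : t => J (p : ℚ × ℚ).1 (p : ℚ × ℚ).2) (fun p : N => J (p : ℚ × ℚ).1 (p : ℚ × ℚ).2) :=
  Dy_of3 (gen2 _ (fun p : ℚ × ℚ => p.1 ∈ A ∧ 0 < p.2) (fun p => EA p.1 1 p.2) (fun p => J p.1 p.2) y
    (fun S hS => EA_meas_S S fun p hp => ⟨(h _ (hS p hp).1).1.1.le, (h _ (hS p hp).1).1.2, (hS p hp).2⟩)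
    (fun p hp T hT hR => by
      rw [range_e] at hT
      obtain ⟨⟨h0, h1⟩, h2, h3⟩ := h _ hp.1
      exact Z_mem h0 h1 hp.2 (hT (Or.inl rfl)) (clF_le hT h2) (clF_le hT h3) hR) t N hv hcard hd)

/-- the hypothesis for the incomplete gamma values -/
def GG (y : Fin r → ℝ) (A : Set ℚ) : Prop := ∀ a ∈ A, (0 < a ∧ a < 1) ∧ Real.Gamma a ∈ clF ({Real.exp 1} ∪ range y)

/-- the numbers `Γ(a, x)`: the first dichotomy -/
theorem G_gen1 (h : GG y A) (t N : Finset (Fin r ⊕ (ℚ × ℚ)))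
    (hv : ∀ p, Sum.inr p ∈ t ∨ Sum.inr p ∈ N → p.1 ∈ A ∧ 0 < p.2) (hcard : r ≤ t.card) (hd : Disjoint t N) :
    Dx (fun i : t => Sum.elim y (fun p : ℚ × ℚ => gu p.1 p.2) (i : Fin r ⊕ (ℚ × ℚ)))
      (fun i : N => Sum.elim y (fun p : ℚ × ℚ => gu p.1 p.2) (i : Fin r ⊕ (ℚ × ℚ))) :=
  Dx_of (gen1 _ (fun p : ℚ × ℚ => p.1 ∈ A ∧ 0 < p.2) (fun p => EA p.1 1 p.2) _ y
    (fun S hS => EA_meas_S S fun p hp => ⟨(h _ (hS p hp).1).1.1.le, (h _ (hS p hp).1).1.2, (hS p hp).2⟩)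
    (fun p hp T hT hR => by
      rw [range_e] at hT
      obtain ⟨⟨h0, h1⟩, h2⟩ := h _ hp.1
      exact EA_one_mem h0 hp.2 (hT (Or.inl rfl)) (clF_le hT h2) hR) t N hv hcard hd)

/-- the numbers `Γ(a, x)`: the second dichotomy -/
theorem G_gen2 (h : GG y A) (t N : Finset (ℚ × ℚ)) (hv : ∀ p, p ∈ t ∨ p ∈ N → p.1 ∈ A ∧ 0 < p.2)
    (hcard : r ≤ t.card + 1) (hd : Disjoint t N) :
    Dy y (fun p : t => gu (p : ℚ × ℚ).1 (p : ℚ × ℚ).2) (fun p : N => gu (p : ℚ × ℚ).1 (p : ℚ × ℚ).2) :=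
  Dy_of3 (gen2 _ (fun p : ℚ × ℚ => p.1 ∈ A ∧ 0 < p.2) (fun p => EA p.1 1 p.2) (fun p => gu p.1 p.2) y
    (fun S hS => EA_meas_S S fun p hp => ⟨(h _ (hS p hp).1).1.1.le, (h _ (hS p hp).1).1.2, (hS p hp).2⟩)
    (fun p hp T hT hR => by
      rw [range_e] at hT
      obtain ⟨⟨h0, h1⟩, h2⟩ := h _ hp.1
      exact EA_one_mem h0 hp.2 (hT (Or.inl rfl)) (clF_le hT h2) hR) t N hv hcard hd)

/-- the case of two near numbers -/
theorem Dx.indep2 {κ : Type} {t₁ t₂ : ℝ} {u : κ → ℝ} (h : Dx (fun b : Bool => if b then t₁ else t₂) u)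
    (h₁ : UN t₁) (h₂ : t₂ ∈ clF {Real.exp 1}) :
    AlgebraicIndependent ℚ (fun o : Option κ => o.elim (Real.exp 1) u) := by
  refine Pool.Agent.N778.EM.algInd_Q ?_
  rw [algebraicIndependent_iff]
  intro P hP
  by_contra hP0
  -- the relation for `t₂`
  have h3 : ¬ AlgebraicIndependent ℤ (![t₂, Real.exp 1]) := by
    intro h
    have h2 := Pool.Agent.N778.EM.algInd_Q h
    have h3 := Pool.Agent.R352.E.card_le_card h2 (y := fun _ : Unit => Real.exp 1) (fun b => by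
      have e1 : (range fun _ : Unit => Real.exp 1) = {Real.exp 1} := range_const
      rw [e1]
      fin_cases b
      · exact h₂
      · exact subset_clF _ rfl)
    simp at h3
  rw [algebraicIndependent_iff] at h3
  push Not at h3
  obtain ⟨F, hF, hF0⟩ := h3
  obtain ⟨D, hD⟩ := h₁
  obtain ⟨k, c, hc, h1⟩ := h (max (max D P.totalDegree) F.totalDegree)
  obtain ⟨B₁, hB₁, hPB⟩ := exists_ht P
  obtain ⟨B₂, hB₂, hFB⟩ := exists_ht F
  set B := B₁ * B₂ with hB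
  have hB1 : 1 ≤ B := by nlinarith
  have hB0 : 0 < B := by linarith
  obtain ⟨Q, H, hQ, hQD, hH, hQH, hQs⟩ := hD k (c / B ^ k) (by positivity)
  have hHB : 1 ≤ H * B := by nlinarith
  have hH0 : 0 < H := by linarith
  have hB₁' : B₁ ≤ H * B := by
    have : B₁ ≤ B := by nlinarith
    nlinarith
  have hB₂' : B₂ ≤ H * B := by
    have : B₂ ≤ B := by nlinarith
    nlinarith
  have hpos : 0 < c / (H * B) ^ k := by positivity
  rcases h1 (fun b => if b then Q else F) P (by rintro (_ | _) <;> simp_all) hP0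
    (by
      rintro (_ | _)
      · exact le_max_right _ _
      · exact hQD.trans ((le_max_left _ _).trans (le_max_left _ _)))
    ((le_max_right _ _).trans (le_max_left _ _)) (H * B) hHB
    (by
      rintro (_ | _) s
      · exact (hFB s).trans hB₂'
      · exact (hQH s).trans (by nlinarith)) (fun s => (hPB s).trans hB₁') with ⟨b, h2⟩ | h2
  · cases b
    · simp only [Bool.false_eq_true, if_false] at h2
      rw [hF, abs_zero] at h2
      linarith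
    · simp only [if_true] at h2
      have h3 : c / (H * B) ^ k = c / B ^ k / H ^ k := by
        rw [mul_pow]
        field_simp
      rw [h3] at h2
      linarith
  · rw [hP, abs_zero] at h2
    linarith

end Pool.Agent.N778.AF
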