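import Pool.Agent.N778.AF.Scale

/-!
# The general dichotomy at each scale
-/

set_option autoImplicit false

open Filter Set

namespace Pool.Agent.N778.AF

open MvPolynomial
open Pool.Agent.N778.EM (MeasF)
open Pool.Agent.R352.E (clF mem_clF subset_clF clF_mono clF_le)

/-- At each scale one of the numbers `v i` is not near a number algebraic over `ℚ(θ₀)`, or `θ₀` and the numbers `u j`
are not near a relation. -/
def Dich {n : ℕ} (θ₀ : Fin n → ℝ) {ν κ : Type} (v : ν → ℝ) (u : κ → ℝ) : Prop :=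
  ∀ D : ℕ, ∃ k : ℕ, ∃ c : ℝ, 0 < c ∧ ∀ (Q : ν → MvPolynomial (Fin (n + 1)) ℤ) (P : MvPolynomial (Fin n ⊕ κ) ℤ),
    (∀ i, Q i ≠ 0) → P ≠ 0 → (∀ i, (Q i).totalDegree ≤ D) → P.totalDegree ≤ D → ∀ H : ℝ, 1 ≤ H →
    (∀ i s, |(((Q i).coeff s : ℤ) : ℝ)| ≤ H) → (∀ s, |((P.coeff s : ℤ) : ℝ)| ≤ H) →
      (∃ i, c ≤ H ^ k * |aeval (Fin.cons (v i) θ₀ : Fin (n + 1) → ℝ) (Q i)|) ∨
        c ≤ H ^ k * |aeval (Sum.elim θ₀ u) P|

/-- the type of the variables -/
def VT (n : ℕ) (ν κ : Type) : ν ⊕ Unit → Type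
  | .inl _ => Fin (n + 1)
  | .inr _ => Fin n ⊕ κ

instance (n : ℕ) (ν κ : Type) [Fintype κ] : ∀ a : ν ⊕ Unit, Fintype (VT n ν κ a)
  | .inl _ => inferInstanceAs (Fintype (Fin (n + 1)))
  | .inr _ => inferInstanceAs (Fintype (Fin n ⊕ κ))

/-- the values of the variables -/
def VX {n : ℕ} (θ₀ : Fin n → ℝ) {ν κ : Type} (v : ν → ℝ) (u : κ → ℝ) : (a : ν ⊕ Unit) → VT n ν κ a → ℝ
  | .inl i => (Fin.cons (v i) θ₀ : Fin (n + 1) → ℝ)
  | .inr _ => Sum.elim θ₀ u

theorem Dich_of {n : ℕ} (θ₀ : Fin n → ℝ) {ν κ : Type} [Fintype κ] (v : ν → ℝ) (u : κ → ℝ)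
    (h : ∀ σ : Scale, (∀ i, ¬ AlgebraicIndependent (base σ) (fun j => cst σ ((Fin.cons (v i) θ₀ : Fin (n + 1) → ℝ) j))) →
      AlgebraicIndependent (base σ) (fun j => cst σ (Sum.elim θ₀ u j))) : Dich θ₀ v u := by
  intro D
  have hNS : NS (VX θ₀ v u) := by
    refine NS_of _ fun σ => ?_
    by_cases h1 : ∀ i, ¬ AlgebraicIndependent (base σ) (fun j => cst σ ((Fin.cons (v i) θ₀ : Fin (n + 1) → ℝ) j))
    · exact ⟨.inr (), h σ h1⟩
    · push Not at h1
      obtain ⟨i, hi⟩ := h1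
      exact ⟨.inl i, hi⟩
  obtain ⟨k, c, hc, h1⟩ := hNS D
  refine ⟨k, c, hc, fun Q P hQ hP hQD hPD H hH hQH hPH => ?_⟩
  obtain ⟨a, ha⟩ := h1 (fun a => match a with
    | .inl i => Q i
    | .inr _ => P) (by rintro (i | i); exacts [hQ i, hP]) (by rintro (i | i); exacts [hQD i, hPD]) H hH
    (by rintro (i | i); exacts [hQH i, hPH])
  rcases a with i | i
  · exact Or.inl ⟨i, ha⟩
  · exact Or.inr ha

/-- an element near a number algebraic over `θ₀` is algebraic over `θ₀` -/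
lemma mem_of_near (σ : Scale) {n : ℕ} {θ₀ : Fin n → ℝ} (hθ : AlgebraicIndependent (base σ) (fun j => cst σ (θ₀ j)))
    {v : ℝ} (h : ¬ AlgebraicIndependent (base σ) (fun j => cst σ ((Fin.cons v θ₀ : Fin (n + 1) → ℝ) j))) :
    cst σ v ∈ clA σ (range fun j => cst σ (θ₀ j)) := by
  refine mem_of_dep σ hθ fun h1 => h ?_
  have h2 := h1.comp (finSuccEquiv n) (finSuccEquiv n).injective
  convert h2 using 1
  funext j
  refine Fin.cases ?_ (fun j => ?_) j
  · simp
  · simp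

/-- **The general dichotomy.** -/
theorem dich_gen {PA : Type} {r : ℕ} (Z R : PA → ℝ) (y : Fin r → ℝ)
    (hm : ∀ S : Finset PA, MeasF (Sum.elim (fun _ : Fin 1 => Real.exp 1) (fun p : S => Z p)))
    (hZ : ∀ p : PA, ∀ T : Set ℝ, {Real.exp 1} ∪ range y ⊆ clF T → R p ∈ clF T → Z p ∈ clF T)
    (t N : Finset (Fin r ⊕ PA)) (hcard : r ≤ t.card) (hd : Disjoint t N) :
    Dich (fun _ : Fin 1 => Real.exp 1) (fun i : t => Sum.elim y R (i : Fin r ⊕ PA))
      (fun i : N => Sum.elim y R (i : Fin r ⊕ PA)) := by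
  classical
  refine Dich_of _ _ _ fun σ hσ => ?_
  set V : Fin r ⊕ PA → ℝ := Sum.elim y R with hV
  let PF : Finset PA := (t ∪ N).biUnion fun i => Sum.elim (fun _ => ∅) (fun p => {p}) i
  have hPF : ∀ p : PA, Sum.inr p ∈ t ∪ N → p ∈ PF := fun p hp => Finset.mem_biUnion.2 ⟨_, hp, by simp⟩
  have hind := indep_of_meas σ (hm PF)
  -- `e` is transcendental
  have he1 : AlgebraicIndependent (base σ) (fun j : Fin 1 => cst σ (Real.exp 1)) :=
    hind.comp (Sum.inl : Fin 1 → Fin 1 ⊕ PF) Sum.inl_injective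
  have hnear : ∀ i ∈ t, cst σ (V i) ∈ clA σ (range fun _ : Fin 1 => cst σ (Real.exp 1)) := fun i hi =>
    mem_of_near σ he1 (hσ ⟨i, hi⟩)
  -- all the names
  let M : Finset (Fin r ⊕ PA) := (Finset.univ : Finset (Fin r)).disjSum PF
  have htM : ∀ i ∈ t ∪ N, i ∈ M := by
    intro i hi
    rcases i with i | p
    · exact Finset.inl_mem_disjSum.2 (Finset.mem_univ _)
    · exact Finset.inr_mem_disjSum.2 (hPF p hi)
  have hMcard : M.card = r + PF.card := by
    rw [Finset.card_disjSum, Finset.card_univ, Fintype.card_fin]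
  let M' : Finset (Fin r ⊕ PA) := M \ t
  have hM'card : M'.card ≤ PF.card := by
    rw [Finset.card_sdiff_of_subset (fun i hi => htM i (Finset.mem_union_left _ hi))]
    omega
  have key : AlgebraicIndependent (base σ)
      (fun j : Fin 1 ⊕ M' => cst σ (Sum.elim (fun _ : Fin 1 => Real.exp 1) (fun i : M' => V i) j)) := by
    refine indep_of_spanA σ hind ?_ ?_
    · set T' : Set (AK σ) :=
        range (fun j : Fin 1 ⊕ M' => cst σ (Sum.elim (fun _ : Fin 1 => Real.exp 1) (fun i : M' => V i) j)) with hT'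
      have he : cst σ (Real.exp 1) ∈ clA σ T' := subset_clA σ _ ⟨Sum.inl 0, rfl⟩
      have hVM : ∀ i ∈ M, cst σ (V i) ∈ clA σ T' := by
        intro i hi
        by_cases hit : i ∈ t
        · refine clA_le σ ?_ (hnear i hit)
          rintro _ ⟨j, rfl⟩
          exact he
        · exact subset_clA σ _ ⟨Sum.inr ⟨i, Finset.mem_sdiff.2 ⟨hi, hit⟩⟩, rfl⟩
      rintro (j | p)
      · exact he
      · refine cst_mem_of σ (hZ p.1 ({Real.exp 1} ∪ range y ∪ {R p.1}) ?_ ?_) ?_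
        · exact fun z hz => subset_clF _ (Or.inl hz)
        · exact subset_clF _ (Or.inr rfl)
        · rintro z ((hz | ⟨i, rfl⟩) | hz)
          · rw [mem_singleton_iff.1 hz]
            exact he
          · exact hVM (Sum.inl i) (Finset.inl_mem_disjSum.2 (Finset.mem_univ _))
          · rw [mem_singleton_iff.1 hz]
            exact hVM (Sum.inr p.1) (Finset.inr_mem_disjSum.2 p.2)
    · simp only [Fintype.card_sum, Fintype.card_fin, Fintype.card_coe]
      omega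
  have hNM : ∀ i ∈ N, i ∈ M' := fun i hi =>
    Finset.mem_sdiff.2 ⟨htM i (Finset.mem_union_right _ hi), fun h => Finset.disjoint_left.1 hd h hi⟩
  have h1 := key.comp (Sum.map id fun i : N => (⟨i.1, hNM i.1 i.2⟩ : M')) (by
    refine Function.Injective.sumMap Function.injective_id ?_
    intro a b hab
    exact Subtype.ext (congrArg (fun z : M' => z.1) hab))
  convert h1 using 1
  funext j
  rcases j with j | j <;> rfl

/-- the general dichotomy for a finite family -/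
theorem dich_fin {n : ℕ} {ι₁ ν κ : Type} [Fintype ι₁] [Fintype κ] (θ₀ : Fin n → ℝ) (w : ι₁ → ℝ)
    (hθ : MeasF (Sum.elim θ₀ w)) (v : ν → ℝ) (u : κ → ℝ) (hcard : Fintype.card κ ≤ Fintype.card ι₁)
    (hw : ∀ j, w j ∈ clF (range θ₀ ∪ range v ∪ range u)) : Dich θ₀ v u := by
  classical
  refine Dich_of _ _ _ fun σ hσ => ?_
  have hind := indep_of_meas σ hθ
  have he1 : AlgebraicIndependent (base σ) (fun j : Fin n => cst σ (θ₀ j)) :=
    hind.comp (Sum.inl : Fin n → Fin n ⊕ ι₁) Sum.inl_injective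
  have hnear : ∀ i, cst σ (v i) ∈ clA σ (range fun j => cst σ (θ₀ j)) := fun i => mem_of_near σ he1 (hσ i)
  refine indep_of_spanA σ hind ?_ (by simp only [Fintype.card_sum, Fintype.card_fin]; omega)
  set T' : Set (AK σ) := range (fun j : Fin n ⊕ κ => cst σ (Sum.elim θ₀ u j)) with hT'
  have he : ∀ i, cst σ (θ₀ i) ∈ clA σ T' := fun i => subset_clA σ _ ⟨Sum.inl i, rfl⟩
  rintro (j | j)
  · exact he j
  · refine cst_mem_of σ (hw j) ?_
    rintro z ((⟨i, rfl⟩ | ⟨i, rfl⟩) | ⟨i, rfl⟩)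
    · exact he i
    · refine clA_le σ ?_ (hnear i)
      rintro _ ⟨i', rfl⟩
      exact he i'
    · exact subset_clA σ _ ⟨Sum.inr i, rfl⟩

/-- monotonicity -/
lemma Dich.mono {n : ℕ} {θ₀ : Fin n → ℝ} {ν κ ν' κ' : Type} {v : ν → ℝ} {u : κ → ℝ} (h : Dich θ₀ v u)
    {v' : ν' → ℝ} {u' : κ' → ℝ} (f : ν → ν') (hf : ∀ i, v' (f i) = v i) (g : κ' → κ) (hg : Function.Injective g)
    (hgu : ∀ i, u (g i) = u' i) : Dich θ₀ v' u' := by
  intro D
  obtain ⟨k, c, hc, h1⟩ := h D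
  refine ⟨k, c, hc, fun Q P hQ hP hQD hPD H hH hQH hPH => ?_⟩
  have hinj : Function.Injective (Sum.map id g : Fin n ⊕ κ' → Fin n ⊕ κ) :=
    Function.Injective.sumMap Function.injective_id hg
  have hP' : MvPolynomial.rename (Sum.map id g : Fin n ⊕ κ' → Fin n ⊕ κ) P ≠ 0 := by
    intro h0
    exact hP (MvPolynomial.rename_injective _ hinj (by rw [h0, map_zero]))
  have hPH' : ∀ s, |(((MvPolynomial.rename (Sum.map id g : Fin n ⊕ κ' → Fin n ⊕ κ) P).coeff s : ℤ) : ℝ)| ≤ H := by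
    intro s
    by_cases hs : ∃ s', Finsupp.mapDomain (Sum.map id g) s' = s
    · obtain ⟨s', rfl⟩ := hs
      rw [MvPolynomial.coeff_rename_mapDomain _ hinj]
      exact hPH s'
    · push Not at hs
      rw [MvPolynomial.coeff_rename_eq_zero _ _ _ (fun s' hs' => absurd hs' (hs s'))]
      simpa using zero_le_one.trans hH
  rcases h1 (fun i => Q (f i)) _ (fun i => hQ _) hP' (fun i => hQD _)
    ((MvPolynomial.totalDegree_rename_le _ _).trans hPD) H hH (fun i => hQH _) hPH' with ⟨i, hi⟩ | h2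
  · exact Or.inl ⟨f i, by rw [hf]; exact hi⟩
  · refine Or.inr ?_
    rw [MvPolynomial.aeval_rename] at h2
    have h3 : Sum.elim θ₀ u ∘ (Sum.map id g : Fin n ⊕ κ' → Fin n ⊕ κ) = Sum.elim θ₀ u' := by
      funext j
      rcases j with j | j
      · rfl
      · exact hgu j
    rwa [h3] at h2

end Pool.Agent.N778.AF
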