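import Pool.Agent.N778.AF.Gen
import Pool.Agent.N778.EM.Pencil

/-!
# Consequences of the dichotomy
-/

set_option autoImplicit false

open Filter Set MeasureTheory

namespace Pool.Agent.N778.AF

open MvPolynomial
open Pool.Agent.N778.EM (MeasF)
open Pool.Agent.R352.E (clF mem_clF subset_clF clF_mono clF_le of_pow)

/-- heights under an injective renaming of the variables -/
lemma rename_ht {α β : Type} {g : α → β} (hg : Function.Injective g) {P : MvPolynomial α ℤ} {H : ℝ} (hH : 1 ≤ H)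
    (h : ∀ s, |((P.coeff s : ℤ) : ℝ)| ≤ H) (s : β →₀ ℕ) : |(((MvPolynomial.rename g P).coeff s : ℤ) : ℝ)| ≤ H := by
  by_cases hs : ∃ s', Finsupp.mapDomain g s' = s
  · obtain ⟨s', rfl⟩ := hs
    rw [MvPolynomial.coeff_rename_mapDomain _ hg]
    exact h s'
  · push Not at hs
    rw [MvPolynomial.coeff_rename_eq_zero _ _ _ (fun s' hs' => absurd hs' (hs s'))]
    simpa using zero_le_one.trans hH

lemma rename_ne {α β : Type} {g : α → β} (hg : Function.Injective g) {P : MvPolynomial α ℤ} (h : P ≠ 0) :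
    MvPolynomial.rename g P ≠ 0 := fun h0 => h (MvPolynomial.rename_injective _ hg (by rw [h0, map_zero]))

/-- the dichotomy in the form used in the statements -/
def Dx {ν κ : Type} (v : ν → ℝ) (u : κ → ℝ) : Prop :=
  ∀ D : ℕ, ∃ k : ℕ, ∃ c : ℝ, 0 < c ∧ ∀ (Q : ν → MvPolynomial (Fin 2) ℤ) (P : MvPolynomial (Option κ) ℤ),
    (∀ i, Q i ≠ 0) → P ≠ 0 → (∀ i, (Q i).totalDegree ≤ D) → P.totalDegree ≤ D → ∀ H : ℝ, 1 ≤ H →
    (∀ i s, |(((Q i).coeff s : ℤ) : ℝ)| ≤ H) → (∀ s, |((P.coeff s : ℤ) : ℝ)| ≤ H) →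
      (∃ i, c / H ^ k ≤ |aeval ![v i, Real.exp 1] (Q i)|) ∨
        c / H ^ k ≤ |aeval (fun o : Option κ => o.elim (Real.exp 1) u) P|

theorem Dx_of {ν κ : Type} {v : ν → ℝ} {u : κ → ℝ} (h : Dich (fun _ : Fin 1 => Real.exp 1) v u) : Dx v u := by
  intro D
  obtain ⟨k, c, hc, h1⟩ := h D
  refine ⟨k, c, hc, fun Q P hQ hP hQD hPD H hH hQH hPH => ?_⟩
  have hHk : 0 < H ^ k := by positivity
  let g : Option κ → Fin 1 ⊕ κ := fun o => o.elim (Sum.inl 0) Sum.inr
  have hg : Function.Injective g := by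
    intro a b hab
    cases a <;> cases b <;> simp_all [g]
  rcases h1 Q (MvPolynomial.rename g P) hQ (rename_ne hg hP) hQD ((MvPolynomial.totalDegree_rename_le _ _).trans hPD)
    H hH hQH (rename_ht hg hH hPH) with ⟨i, hi⟩ | h2
  · refine Or.inl ⟨i, ?_⟩
    have e1 : (Fin.cons (v i) (fun _ : Fin 1 => Real.exp 1) : Fin 2 → ℝ) = ![v i, Real.exp 1] := by
      funext j
      fin_cases j <;> rfl
    rw [e1] at hi
    rw [div_le_iff₀ hHk, mul_comm]
    exact hi
  · refine Or.inr ?_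
    rw [MvPolynomial.aeval_rename] at h2
    have e1 : (Sum.elim (fun _ : Fin 1 => Real.exp 1) u ∘ g) = fun o : Option κ => o.elim (Real.exp 1) u := by
      funext o
      cases o <;> rfl
    rw [e1] at h2
    rw [div_le_iff₀ hHk, mul_comm]
    exact h2

/-- The number `t` is algebraic over `ℚ(e)` or very close to such numbers: for some `D` and all `k` and `c > 0` there is a
nonzero integral polynomial `Q` of degree at most `D` and height at most `H` with `|Q(t, e)| < c / H ^ k`. -/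
def UN (t : ℝ) : Prop :=
  ∃ D : ℕ, ∀ k : ℕ, ∀ c : ℝ, 0 < c → ∃ (Q : MvPolynomial (Fin 2) ℤ) (H : ℝ), Q ≠ 0 ∧ Q.totalDegree ≤ D ∧ 1 ≤ H ∧
    (∀ s, |((Q.coeff s : ℤ) : ℝ)| ≤ H) ∧ |aeval ![t, Real.exp 1] Q| < c / H ^ k

lemma exists_ht {α : Type} (P : MvPolynomial α ℤ) : ∃ B : ℝ, 1 ≤ B ∧ ∀ s, |((P.coeff s : ℤ) : ℝ)| ≤ B := by
  classical
  refine ⟨1 + ∑ s ∈ P.support, |((P.coeff s : ℤ) : ℝ)|, ?_, fun s => ?_⟩
  · have : 0 ≤ ∑ s ∈ P.support, |((P.coeff s : ℤ) : ℝ)| := Finset.sum_nonneg fun _ _ => abs_nonneg _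
    linarith
  · have h0 : 0 ≤ ∑ s ∈ P.support, |((P.coeff s : ℤ) : ℝ)| := Finset.sum_nonneg fun _ _ => abs_nonneg _
    by_cases hs : s ∈ P.support
    · have := Finset.single_le_sum (f := fun s => |((P.coeff s : ℤ) : ℝ)|) (fun _ _ => abs_nonneg _) hs
      linarith
    · rw [MvPolynomial.notMem_support_iff.1 hs]
      simp only [Int.cast_zero, abs_zero]
      linarith

/-- if `t` is algebraic over `ℚ(e)` or very close to such numbers, `e` and the other numbers are algebraically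
independent -/
theorem Dx.indep {κ : Type} {t : ℝ} {u : κ → ℝ} (h : Dx (fun _ : Unit => t) u) (ht : UN t) :
    AlgebraicIndependent ℚ (fun o : Option κ => o.elim (Real.exp 1) u) := by
  refine Pool.Agent.N778.EM.algInd_Q ?_
  rw [algebraicIndependent_iff]
  intro P hP
  by_contra hP0
  obtain ⟨D, hD⟩ := ht
  obtain ⟨k, c, hc, h1⟩ := h (max D P.totalDegree)
  obtain ⟨B, hB, hPB⟩ := exists_ht P
  have hB0 : 0 < B := by linarith
  obtain ⟨Q, H, hQ, hQD, hH, hQH, hQs⟩ := hD k (c / B ^ k) (by positivity)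
  have hHB : 1 ≤ H * B := by nlinarith
  have hH0 : 0 < H := by linarith
  rcases h1 (fun _ => Q) P (fun _ => hQ) hP0 (fun _ => hQD.trans (le_max_left _ _)) (le_max_right _ _) (H * B) hHB
    (fun _ s => (hQH s).trans (by nlinarith)) (fun s => (hPB s).trans (by nlinarith)) with ⟨_, h2⟩ | h2
  · have h3 : c / (H * B) ^ k = c / B ^ k / H ^ k := by
      rw [mul_pow]
      field_simp
    rw [h3] at h2
    linarith
  · rw [hP, abs_zero] at h2
    have : 0 < c / (H * B) ^ k := by positivity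
    linarith

/-- numbers algebraic over `ℚ(e)` -/
lemma UN_of_alg {t : ℝ} (ht : t ∈ clF {Real.exp 1}) : UN t := by
  have h1 : ¬ AlgebraicIndependent ℤ (![t, Real.exp 1]) := by
    intro h
    have h2 := Pool.Agent.N778.EM.algInd_Q h
    have h3 := Pool.Agent.R352.E.card_le_card h2 (y := fun _ : Unit => Real.exp 1) (fun b => by
      have e1 : (range fun _ : Unit => Real.exp 1) = {Real.exp 1} := range_const
      rw [e1]
      fin_cases b
      · exact ht
      · exact subset_clF _ rfl)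
    simp at h3
  rw [algebraicIndependent_iff] at h1
  push Not at h1
  obtain ⟨Q, hQ, hQ0⟩ := h1
  obtain ⟨B, hB, hQB⟩ := exists_ht Q
  refine ⟨Q.totalDegree, fun k c hc => ⟨Q, B, hQ0, le_rfl, hB, hQB, ?_⟩⟩
  rw [hQ, abs_zero]
  positivity

/-- a polynomial of degree at most 2 -/
noncomputable def QP (b a : ℤ) : MvPolynomial (Fin 2) ℤ := C b * X 0 * X 1 - C a

lemma QP_eval (b a : ℤ) (t : ℝ) : aeval ![t, Real.exp 1] (QP b a) = b * t * Real.exp 1 - a := by
  simp [QP]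

lemma QP_deg (b a : ℤ) : (QP b a).totalDegree ≤ 2 := by
  refine (MvPolynomial.totalDegree_sub _ _).trans (max_le ?_ ?_)
  · refine (MvPolynomial.totalDegree_mul _ _).trans ?_
    refine (Nat.add_le_add ((MvPolynomial.totalDegree_mul _ _)) le_rfl).trans ?_
    rw [MvPolynomial.totalDegree_C, MvPolynomial.totalDegree_X, MvPolynomial.totalDegree_X]
  · rw [MvPolynomial.totalDegree_C]
    omega

lemma QP_coeff (b a : ℤ) (s : Fin 2 →₀ ℕ) {H : ℝ} (hb : |(b : ℝ)| ≤ H) (ha : |(a : ℝ)| ≤ H) :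
    |(((QP b a).coeff s : ℤ) : ℝ)| ≤ H := by
  classical
  have h0 : 0 ≤ H := (abs_nonneg _).trans hb
  have e1 : (C b * X 0 * X 1 : MvPolynomial (Fin 2) ℤ) = monomial (Finsupp.single 0 1 + Finsupp.single 1 1) b := by
    rw [show (C b * X 0 * X 1 : MvPolynomial (Fin 2) ℤ) = C b * (X 0 * X 1) by ring]
    rw [MvPolynomial.X, MvPolynomial.X, MvPolynomial.monomial_mul, MvPolynomial.C_mul_monomial]
    simp
  have e2 : (C a : MvPolynomial (Fin 2) ℤ) = monomial 0 a := rfl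
  rw [QP, e1, e2, MvPolynomial.coeff_sub, MvPolynomial.coeff_monomial, MvPolynomial.coeff_monomial]
  by_cases h1 : Finsupp.single (0 : Fin 2) 1 + Finsupp.single 1 1 = s
  · have h2 : (0 : Fin 2 →₀ ℕ) ≠ s := by
      rw [← h1]
      intro h
      have := DFunLike.congr_fun h 0
      simp at this
    rw [if_pos h1, if_neg h2, sub_zero]
    exact hb
  · rw [if_neg h1]
    split_ifs with h2
    · rw [zero_sub, Int.cast_neg, abs_neg]
      exact ha
    · simpa using h0

lemma QP_ne {b : ℤ} (hb : b ≠ 0) (a : ℤ) : QP b a ≠ 0 := by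
  intro h
  have h1 := congrArg (aeval (![1, 1] : Fin 2 → ℤ)) h
  have h2 := congrArg (aeval (![0, 0] : Fin 2 → ℤ)) h
  simp [QP] at h1 h2
  omega

/-- `t` is very well approximable if `t e` is a Liouville number -/
lemma UN_of_liouville {t : ℝ} (h : Liouville (t * Real.exp 1)) : UN t := by
  refine ⟨2, fun k c hc => ?_⟩
  set ξ := t * Real.exp 1 with hξ
  set B : ℝ := |ξ| + 2 with hB
  have hB0 : 0 < B := by positivity
  have hB1 : 1 ≤ B := by
    have := abs_nonneg ξ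
    linarith
  obtain ⟨m, hm⟩ := pow_unbounded_of_one_lt (B ^ k / c) (one_lt_two (α := ℝ))
  obtain ⟨a, b, hb, -, hab⟩ := h (k + 1 + m)
  have hb1 : (1 : ℝ) < b := by exact_mod_cast hb
  have hb0 : (0 : ℝ) < b := by linarith
  have hb2 : (2 : ℝ) ≤ b := by exact_mod_cast hb
  have hsmall : |(b : ℝ) * ξ - a| < 1 / (b : ℝ) ^ (k + m) := by
    have e1 : (b : ℝ) * ξ - a = b * (ξ - a / b) := by field_simp
    rw [e1, abs_mul, abs_of_pos hb0]
    calc (b : ℝ) * |ξ - a / b| < b * (1 / (b : ℝ) ^ (k + 1 + m)) := mul_lt_mul_of_pos_left hab hb0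
      _ = 1 / (b : ℝ) ^ (k + m) := by
        rw [show k + 1 + m = (k + m) + 1 by ring, pow_succ]
        field_simp
  have ha : |(a : ℝ)| ≤ B * b := by
    have h1 : |(a : ℝ)| ≤ |(b : ℝ) * ξ| + |(b : ℝ) * ξ - a| := by
      have := abs_sub_abs_le_abs_sub ((a : ℝ)) (b * ξ)
      rw [abs_sub_comm] at this
      linarith
    have h2 : 1 / (b : ℝ) ^ (k + m) ≤ 1 := by
      rw [div_le_one (by positivity)]
      exact one_le_pow₀ hb1.le
    have h3 : |(b : ℝ) * ξ| = b * |ξ| := by rw [abs_mul, abs_of_pos hb0]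
    rw [h3] at h1
    rw [hB]
    nlinarith
  refine ⟨QP b a, B * b, QP_ne (by omega) a, QP_deg b a, by nlinarith, fun s => QP_coeff b a s ?_ ha, ?_⟩
  · rw [abs_of_pos hb0]
    nlinarith
  · rw [QP_eval, mul_assoc, ← hξ]
    refine hsmall.trans_le ?_
    rw [div_le_div_iff₀ (by positivity) (by positivity), one_mul, mul_pow, pow_add]
    have h4 : (2 : ℝ) ^ m ≤ (b : ℝ) ^ m := pow_le_pow_left₀ (by norm_num) hb2 m
    have h5 : B ^ k ≤ c * (b : ℝ) ^ m := by
      rw [div_lt_iff₀ hc] at hm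
      nlinarith
    have h6 : (0 : ℝ) < (b : ℝ) ^ k := by positivity
    nlinarith

/-- a linear form in `1` and the numbers `u j e` -/
noncomputable def LP {κ : Type} [Fintype κ] (a₀ : ℤ) (a : κ → ℤ) : MvPolynomial (Option κ) ℤ :=
  C a₀ + ∑ j, C (a j) * (X (some j) * X none)

lemma LP_eval {κ : Type} [Fintype κ] (a₀ : ℤ) (a : κ → ℤ) (u : κ → ℝ) :
    aeval (fun o : Option κ => o.elim (Real.exp 1) u) (LP a₀ a) = a₀ + ∑ j, (a j : ℝ) * (u j * Real.exp 1) := by
  simp [LP]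

lemma LP_deg {κ : Type} [Fintype κ] (a₀ : ℤ) (a : κ → ℤ) : (LP a₀ a).totalDegree ≤ 2 := by
  refine (MvPolynomial.totalDegree_add _ _).trans (max_le ?_ ?_)
  · rw [MvPolynomial.totalDegree_C]
    omega
  · refine MvPolynomial.totalDegree_finsetSum_le fun j _ => ?_
    refine (MvPolynomial.totalDegree_mul _ _).trans ?_
    refine (Nat.add_le_add le_rfl (MvPolynomial.totalDegree_mul _ _)).trans ?_
    rw [MvPolynomial.totalDegree_C, MvPolynomial.totalDegree_X, MvPolynomial.totalDegree_X]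

lemma LP_ne {κ : Type} [Fintype κ] {a₀ : ℤ} {a : κ → ℤ} (h : a₀ ≠ 0 ∨ a ≠ 0) : LP a₀ a ≠ 0 := by
  classical
  intro h0
  have h1 := congrArg (aeval (fun _ : Option κ => (0 : ℤ))) h0
  have h2 : a₀ = 0 := by simpa [LP] using h1
  rcases h with h | h
  · exact h h2
  · obtain ⟨j, hj⟩ := Function.ne_iff.1 h
    have h3 := congrArg (aeval (fun o : Option κ => o.elim (1 : ℤ) (fun i => if i = j then 1 else 0))) h0
    simp [LP, h2] at h3
    exact hj h3

lemma LP_coeff {κ : Type} [Fintype κ] (a₀ : ℤ) (a : κ → ℤ) (s : Option κ →₀ ℕ) {q : ℝ} (h0 : |(a₀ : ℝ)| ≤ q)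
    (h : ∀ j, |(a j : ℝ)| ≤ q) : |(((LP a₀ a).coeff s : ℤ) : ℝ)| ≤ (1 + Fintype.card κ) * q := by
  classical
  have hq : 0 ≤ q := (abs_nonneg _).trans h0
  have e1 : ∀ j, (C (a j) * (X (some j) * X none) : MvPolynomial (Option κ) ℤ) =
      monomial (Finsupp.single (some j) 1 + Finsupp.single none 1) (a j) := by
    intro j
    rw [MvPolynomial.X, MvPolynomial.X, MvPolynomial.monomial_mul, MvPolynomial.C_mul_monomial]
    simp
  have e2 : (C a₀ : MvPolynomial (Option κ) ℤ) = monomial 0 a₀ := rfl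
  rw [LP, Finset.sum_congr rfl (fun j _ => e1 j), e2, MvPolynomial.coeff_add, MvPolynomial.coeff_sum]
  simp only [MvPolynomial.coeff_monomial]
  push_cast
  refine (abs_add_le _ _).trans ?_
  rw [add_mul, one_mul]
  refine add_le_add ?_ ?_
  · split_ifs
    · exact h0
    · simpa using hq
  · refine (Finset.abs_sum_le_sum_abs _ _).trans ?_
    refine (Finset.sum_le_card_nsmul _ _ q fun j _ => ?_).trans ?_
    · split_ifs
      · exact h j
      · simpa using hq
    · rw [nsmul_eq_mul, Finset.card_univ]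

/-- the dichotomy for rational approximations of `t e` and linear forms in the numbers `u j e` -/
theorem Dx.explicit {κ : Type} [Fintype κ] {t : ℝ} {u : κ → ℝ} (h : Dx (fun _ : Unit => t) u) :
    ∃ k : ℕ, ∃ c : ℝ, 0 < c ∧ ∀ (q : ℕ) (p a₀ : ℤ) (a : κ → ℤ), 1 ≤ q → (a₀ ≠ 0 ∨ a ≠ 0) → |(a₀ : ℝ)| ≤ q →
      (∀ j, |(a j : ℝ)| ≤ q) → c / q ^ k ≤ |t * Real.exp 1 - p / q| ∨
        c / q ^ k ≤ |a₀ + ∑ j, (a j : ℝ) * (u j * Real.exp 1)| := by
  obtain ⟨k, c, hc, h1⟩ := h 2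
  set ξ := t * Real.exp 1 with hξ
  set B : ℝ := |ξ| + 2 + (1 + Fintype.card κ) with hB
  have hκ : (0 : ℝ) ≤ Fintype.card κ := Nat.cast_nonneg _
  have hB0 : 0 < B := by positivity
  have hB1 : 1 ≤ B := by
    have := abs_nonneg ξ
    linarith
  refine ⟨k + 1, min 1 (c / B ^ k), by positivity, fun q p a₀ a hq hne h0 ha => ?_⟩
  have hq1 : (1 : ℝ) ≤ q := by exact_mod_cast hq
  have hq0 : (0 : ℝ) < q := by linarith
  have hqk : (0 : ℝ) < (q : ℝ) ^ k := by positivity
  have hqk1 : (1 : ℝ) ≤ (q : ℝ) ^ k := one_le_pow₀ hq1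
  by_cases hnear : min 1 (c / B ^ k) / (q : ℝ) ^ (k + 1) ≤ |ξ - p / q|
  · exact Or.inl hnear
  · push Not at hnear
    refine Or.inr ?_
    have hsm : |(q : ℝ) * ξ - p| < min 1 (c / B ^ k) / (q : ℝ) ^ k := by
      have e1 : (q : ℝ) * ξ - p = q * (ξ - p / q) := by field_simp
      rw [e1, abs_mul, abs_of_pos hq0]
      calc (q : ℝ) * |ξ - p / q| < q * (min 1 (c / B ^ k) / (q : ℝ) ^ (k + 1)) := mul_lt_mul_of_pos_left hnear hq0
        _ = min 1 (c / B ^ k) / (q : ℝ) ^ k := by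
          rw [pow_succ]
          field_simp
    have hp : |(p : ℝ)| ≤ B * q := by
      have h2 : |(p : ℝ)| ≤ |(q : ℝ) * ξ| + |(q : ℝ) * ξ - p| := by
        have := abs_sub_abs_le_abs_sub ((p : ℝ)) (q * ξ)
        rw [abs_sub_comm] at this
        linarith
      have h3 : |(q : ℝ) * ξ - p| ≤ 1 := by
        refine hsm.le.trans ?_
        rw [div_le_one hqk]
        exact (min_le_left _ _).trans hqk1
      have h4 : |(q : ℝ) * ξ| = q * |ξ| := by rw [abs_mul, abs_of_pos hq0]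
      rw [h4] at h2
      rw [hB]
      nlinarith
    rcases h1 (fun _ => QP q p) (LP a₀ a) (fun _ => QP_ne (by exact_mod_cast hq0.ne') p) (LP_ne hne)
      (fun _ => QP_deg _ _) (LP_deg _ _) (B * q) (by nlinarith) (fun _ s => QP_coeff _ _ s (by
        rw [Int.cast_natCast, abs_of_pos hq0]
        nlinarith) hp) (fun s => (LP_coeff a₀ a s h0 ha).trans (by
        rw [hB]
        have := abs_nonneg ξ
        nlinarith)) with ⟨_, h2⟩ | h2
    · exfalso
      rw [QP_eval, mul_assoc, ← hξ, Int.cast_natCast] at h2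
      have h3 : c / (B * q) ^ k = c / B ^ k / (q : ℝ) ^ k := by
        rw [mul_pow]
        field_simp
      rw [h3] at h2
      have h4 : min 1 (c / B ^ k) / (q : ℝ) ^ k ≤ c / B ^ k / (q : ℝ) ^ k := by
        gcongr
        exact min_le_right _ _
      linarith
    · rw [LP_eval] at h2
      refine le_trans ?_ h2
      have h3 : c / (B * q) ^ k = c / B ^ k / (q : ℝ) ^ k := by
        rw [mul_pow]
        field_simp
      rw [h3]
      refine div_le_div₀ (by positivity) (min_le_right _ _) hqk ?_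
      exact pow_le_pow_right₀ hq1 (Nat.le_succ k)

end Pool.Agent.N778.AF
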