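import Pool.Agent.N778.AF.Gen2

/-!
# The second dichotomy: near relations between the constants
-/

set_option autoImplicit false

open Filter Set MeasureTheory

namespace Pool.Agent.N778.AF

open MvPolynomial
open Pool.Agent.N778.EM (MeasF)
open Pool.Agent.R352.E (clF mem_clF subset_clF clF_mono clF_le of_pow)

/-- a family whose rank is its number of members is independent -/
lemma indep_of_rk (σ : Scale) {κ : Type*} [Fintype κ] {y : κ → AK σ}
    (h : (Fintype.card κ : ℕ∞) ≤ (Ma σ).eRk (range y)) : AlgebraicIndependent (base σ) y := by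
  have h2 : (range y).encard ≤ Fintype.card κ := by
    rw [← image_univ, ← ENat.card_eq_coe_fintype_card, ← encard_univ]
    exact encard_image_le _ _
  have h3 : (Fintype.card κ : ℕ∞) ≤ (range y).encard := h.trans (Matroid.eRk_le_encard _ _)
  have hfin : (range y).Finite := finite_range y
  have h4 : (Ma σ).Indep (range y) := ((Ma σ).isRkFinite_of_finite hfin).indep_of_encard_le_eRk (h2.trans h)
  have hinj : Function.Injective y := by
    rw [← injOn_univ]
    refine Finite.injOn_of_encard_image_eq finite_univ ?_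
    rw [image_univ]
    refine le_antisymm (h2.trans ?_) ?_
    · rw [encard_univ, ENat.card_eq_coe_fintype_card]
    · rw [encard_univ, ENat.card_eq_coe_fintype_card]; exact h3
  exact (algebraicIndependent_subtype_range hinj).1 h4

lemma rk_of_dep (σ : Scale) {κ : Type*} [Fintype κ] {y : κ → AK σ} (h : ¬ AlgebraicIndependent (base σ) y) :
    (Ma σ).eRk (range y) + 1 ≤ Fintype.card κ := by
  by_contra hcon
  push Not at hcon
  have hfin : (Ma σ).eRk (range y) ≠ ⊤ :=
    (((Ma σ).eRk_le_encard _).trans_lt (finite_range y).encard_lt_top).ne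
  have h1 : (Fintype.card κ : ℕ∞) ≤ (Ma σ).eRk (range y) := (ENat.lt_add_one_iff hfin).1 hcon
  exact h (indep_of_rk σ h1)

/-- the dichotomy with a relation between `e` and the constants `y` -/
def Dy {ρ ν κ : Type} (y : ρ → ℝ) (v : ν → ℝ) (u : κ → ℝ) : Prop :=
  ∀ D : ℕ, ∃ k : ℕ, ∃ c : ℝ, 0 < c ∧ ∀ (F : MvPolynomial (Option ρ) ℤ) (Q : ν → MvPolynomial (Fin 2) ℤ)
    (P : MvPolynomial (Option κ) ℤ), F ≠ 0 → (∀ i, Q i ≠ 0) → P ≠ 0 → F.totalDegree ≤ D →
    (∀ i, (Q i).totalDegree ≤ D) → P.totalDegree ≤ D → ∀ H : ℝ, 1 ≤ H → (∀ s, |((F.coeff s : ℤ) : ℝ)| ≤ H) →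
    (∀ i s, |(((Q i).coeff s : ℤ) : ℝ)| ≤ H) → (∀ s, |((P.coeff s : ℤ) : ℝ)| ≤ H) →
      c / H ^ k ≤ |aeval (fun o : Option ρ => o.elim (Real.exp 1) y) F| ∨
      (∃ i, c / H ^ k ≤ |aeval ![v i, Real.exp 1] (Q i)|) ∨
        c / H ^ k ≤ |aeval (fun o : Option κ => o.elim (Real.exp 1) u) P|

/-- the type of the variables -/
def VT3 (ρ ν κ : Type) : Option (ν ⊕ Unit) → Type
  | none => Option ρ
  | some (.inl _) => Fin 2
  | some (.inr _) => Option κ

instance (ρ ν κ : Type) [Fintype ρ] [Fintype κ] : ∀ a : Option (ν ⊕ Unit), Fintype (VT3 ρ ν κ a)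
  | none => inferInstanceAs (Fintype (Option ρ))
  | some (.inl _) => inferInstanceAs (Fintype (Fin 2))
  | some (.inr _) => inferInstanceAs (Fintype (Option κ))

/-- the values of the variables -/
noncomputable def VX3 {ρ ν κ : Type} (y : ρ → ℝ) (v : ν → ℝ) (u : κ → ℝ) :
    (a : Option (ν ⊕ Unit)) → VT3 ρ ν κ a → ℝ
  | none => fun o : Option ρ => o.elim (Real.exp 1) y
  | some (.inl i) => ![v i, Real.exp 1]
  | some (.inr _) => fun o : Option κ => o.elim (Real.exp 1) u

theorem Dy_of {ρ ν κ : Type} [Fintype ρ] [Fintype κ] (y : ρ → ℝ) (v : ν → ℝ) (u : κ → ℝ)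
    (h : ∀ σ : Scale, ¬ AlgebraicIndependent (base σ) (fun o : Option ρ => cst σ (o.elim (Real.exp 1) y)) →
      (∀ i, ¬ AlgebraicIndependent (base σ) (fun j => cst σ ((![v i, Real.exp 1] : Fin 2 → ℝ) j))) →
      AlgebraicIndependent (base σ) (fun o : Option κ => cst σ (o.elim (Real.exp 1) u))) : Dy y v u := by
  intro D
  have hNS : NS (VX3 y v u) := by
    refine NS_of _ fun σ => ?_
    by_cases h0 : AlgebraicIndependent (base σ) (fun o : Option ρ => cst σ (o.elim (Real.exp 1) y))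
    · exact ⟨none, h0⟩
    by_cases h1 : ∀ i, ¬ AlgebraicIndependent (base σ) (fun j => cst σ ((![v i, Real.exp 1] : Fin 2 → ℝ) j))
    · exact ⟨some (.inr ()), h σ h0 h1⟩
    · push Not at h1
      obtain ⟨i, hi⟩ := h1
      exact ⟨some (.inl i), hi⟩
  obtain ⟨k, c, hc, h1⟩ := hNS D
  refine ⟨k, c, hc, fun F Q P hF hQ hP hFD hQD hPD H hH hFH hQH hPH => ?_⟩
  have hHk : 0 < H ^ k := by positivity
  obtain ⟨a, ha⟩ := h1 (fun a => match a with
    | none => F
    | some (.inl i) => Q i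
    | some (.inr _) => P) (by rintro (_ | i | i); exacts [hF, hQ i, hP])
    (by rintro (_ | i | i); exacts [hFD, hQD i, hPD]) H hH (by rintro (_ | i | i); exacts [hFH, hQH i, hPH])
  rcases a with _ | i | i
  · refine Or.inl ?_
    rw [div_le_iff₀ hHk, mul_comm]
    exact ha
  · refine Or.inr (Or.inl ⟨i, ?_⟩)
    rw [div_le_iff₀ hHk, mul_comm]
    exact ha
  · refine Or.inr (Or.inr ?_)
    rw [div_le_iff₀ hHk, mul_comm]
    exact ha

lemma mem_of_near2 (σ : Scale) (he : AlgebraicIndependent (base σ) (fun _ : Fin 1 => cst σ (Real.exp 1)))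
    {v : ℝ} (h : ¬ AlgebraicIndependent (base σ) (fun j => cst σ ((![v, Real.exp 1] : Fin 2 → ℝ) j))) :
    cst σ v ∈ clA σ {cst σ (Real.exp 1)} := by
  have h1 := mem_of_near σ (θ₀ := fun _ : Fin 1 => Real.exp 1) (v := v) he (fun h2 => h (by
    convert h2 using 1
    funext j
    fin_cases j <;> rfl))
  have e1 : (range fun _ : Fin 1 => cst σ (Real.exp 1)) = {cst σ (Real.exp 1)} := range_const
  rwa [e1] at h1

/-- **The second general dichotomy.** -/
theorem dich2_gen {PA : Type} {r : ℕ} (Z R : PA → ℝ) (y : Fin r → ℝ)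
    (hm : ∀ S : Finset PA, MeasF (Sum.elim (fun _ : Fin 1 => Real.exp 1) (fun p : S => Z p)))
    (hZ : ∀ p : PA, ∀ T : Set ℝ, {Real.exp 1} ∪ range y ⊆ clF T → R p ∈ clF T → Z p ∈ clF T)
    (t N : Finset PA) (hcard : r ≤ t.card + 1) (hd : Disjoint t N) :
    Dy y (fun i : t => R i) (fun i : N => R i) := by
  classical
  refine Dy_of _ _ _ fun σ hy hσ => ?_
  have hind := indep_of_meas σ (hm (t ∪ N))
  have he1 : AlgebraicIndependent (base σ) (fun _ : Fin 1 => cst σ (Real.exp 1)) :=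
    hind.comp (Sum.inl : Fin 1 → Fin 1 ⊕ (t ∪ N : Finset PA)) Sum.inl_injective
  have hnear : ∀ i ∈ t, cst σ (R i) ∈ clA σ {cst σ (Real.exp 1)} := fun i hi =>
    mem_of_near2 σ he1 (hσ ⟨i, hi⟩)
  set E : AK σ := cst σ (Real.exp 1) with hE
  set A : Set (AK σ) := range (fun o : Option N => cst σ (o.elim (Real.exp 1) (fun i : N => R i))) with hA
  set B : Set (AK σ) := range (fun o : Option (Fin r) => cst σ (o.elim (Real.exp 1) y)) with hB
  have hEA : E ∈ A := ⟨none, rfl⟩
  have hEB : E ∈ B := ⟨none, rfl⟩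
  -- the lower bound
  have hlow : ((1 + (t.card + N.card) : ℕ) : ℕ∞) ≤ (Ma σ).eRk (A ∪ B) := by
    have h1 := card_leA σ hind (T := A ∪ B) ?_
    · refine le_trans (le_of_eq ?_) h1
      simp only [Fintype.card_sum, Fintype.card_fin, Fintype.card_coe, Finset.card_union_of_disjoint hd]
    · have hEm : E ∈ clA σ (A ∪ B) := subset_clA σ _ (Or.inl hEA)
      have hRm : ∀ p ∈ t ∪ N, cst σ (R p) ∈ clA σ (A ∪ B) := by
        intro p hp
        rcases Finset.mem_union.1 hp with hp | hp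
        · refine clA_le σ ?_ (hnear p hp)
          rw [singleton_subset_iff]
          exact hEm
        · exact subset_clA σ _ (Or.inl ⟨some ⟨p, hp⟩, rfl⟩)
      rintro (j | p)
      · exact hEm
      · refine cst_mem_of σ (hZ p.1 ({Real.exp 1} ∪ range y ∪ {R p.1}) ?_ ?_) ?_
        · exact fun z hz => subset_clF _ (Or.inl hz)
        · exact subset_clF _ (Or.inr rfl)
        · rintro z ((hz | ⟨i, rfl⟩) | hz)
          · rw [mem_singleton_iff.1 hz]
            exact hEm
          · exact subset_clA σ _ (Or.inr ⟨some i, rfl⟩)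
          · rw [mem_singleton_iff.1 hz]
            exact hRm p.1 p.2
  -- submodularity
  have hsub := (Ma σ).eRk_submod A B
  have hinter : (1 : ℕ∞) ≤ (Ma σ).eRk (A ∩ B) := by
    have h1 : (Ma σ).Indep {E} := by
      have h2 := he1.to_subtype_range
      have e1 : (range fun _ : Fin 1 => cst σ (Real.exp 1)) = {E} := range_const
      rw [e1] at h2
      exact h2
    have h2 := h1.encard_le_eRk_of_subset (X := A ∩ B) (singleton_subset_iff.2 ⟨hEA, hEB⟩)
    rwa [encard_singleton] at h2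
  have hBr : (Ma σ).eRk B + 1 ≤ ((r + 1 : ℕ) : ℕ∞) := by
    have := rk_of_dep σ hy
    simpa using this
  refine indep_of_rk σ ?_
  rw [Fintype.card_option, Fintype.card_coe]
  -- arithmetic
  have hAfin : (Ma σ).eRk A ≠ ⊤ := (((Ma σ).eRk_le_encard _).trans_lt (finite_range _).encard_lt_top).ne
  have hBfin : (Ma σ).eRk B ≠ ⊤ := (((Ma σ).eRk_le_encard _).trans_lt (finite_range _).encard_lt_top).ne
  have hUfin : (Ma σ).eRk (A ∪ B) ≠ ⊤ := (((Ma σ).eRk_le_encard _).trans_lt
    ((finite_range _).union (finite_range _)).encard_lt_top).ne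
  have hIfin : (Ma σ).eRk (A ∩ B) ≠ ⊤ := (((Ma σ).eRk_le_encard _).trans_lt
    (((finite_range _).inter_of_left _)).encard_lt_top).ne
  obtain ⟨a, ha⟩ := ENat.ne_top_iff_exists.1 hAfin
  obtain ⟨b, hb⟩ := ENat.ne_top_iff_exists.1 hBfin
  obtain ⟨w, hw⟩ := ENat.ne_top_iff_exists.1 hUfin
  obtain ⟨m, hm'⟩ := ENat.ne_top_iff_exists.1 hIfin
  have hA' : (Ma σ).eRk A = a := ha.symm
  rw [← ha, ← hb, ← hw, ← hm'] at hsub
  rw [← hw] at hlow
  rw [← hm'] at hinter
  rw [← hb] at hBr
  rw [hA']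
  norm_cast at hsub hlow hinter hBr ⊢
  omega

lemma opt_inj {α β : Type} {g : α → β} (hg : Function.Injective g) : Function.Injective (Option.map g) :=
  Option.map_injective hg

/-- monotonicity -/
lemma Dx.mono {ν κ ν' κ' : Type} {v : ν → ℝ} {u : κ → ℝ} (h : Dx v u) {v' : ν' → ℝ} {u' : κ' → ℝ} (f : ν → ν')
    (hf : ∀ i, v' (f i) = v i) (g : κ' → κ) (hg : Function.Injective g) (hgu : ∀ i, u (g i) = u' i) : Dx v' u' := by
  intro D
  obtain ⟨k, c, hc, h1⟩ := h D
  refine ⟨k, c, hc, fun Q P hQ hP hQD hPD H hH hQH hPH => ?_⟩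
  rcases h1 (fun i => Q (f i)) (MvPolynomial.rename (Option.map g) P) (fun i => hQ _) (rename_ne (opt_inj hg) hP)
    (fun i => hQD _) ((MvPolynomial.totalDegree_rename_le _ _).trans hPD) H hH (fun i => hQH _)
    (rename_ht (opt_inj hg) hH hPH) with ⟨i, hi⟩ | h2
  · exact Or.inl ⟨f i, by rw [hf]; exact hi⟩
  · refine Or.inr ?_
    rw [MvPolynomial.aeval_rename] at h2
    have h3 : ((fun o : Option κ => o.elim (Real.exp 1) u) ∘ Option.map g) = fun o : Option κ' => o.elim (Real.exp 1) u' := by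
      funext o
      cases o with
      | none => rfl
      | some j => exact hgu j
    rwa [h3] at h2

/-- monotonicity -/
lemma Dy.mono {ρ ν κ ρ' ν' κ' : Type} {y : ρ → ℝ} {v : ν → ℝ} {u : κ → ℝ} (h : Dy y v u) {y' : ρ' → ℝ} {v' : ν' → ℝ}
    {u' : κ' → ℝ} (b : ρ' → ρ) (hb : Function.Injective b) (hby : ∀ i, y (b i) = y' i) (f : ν → ν')
    (hf : ∀ i, v' (f i) = v i) (g : κ' → κ) (hg : Function.Injective g) (hgu : ∀ i, u (g i) = u' i) : Dy y' v' u' := by
  intro D
  obtain ⟨k, c, hc, h1⟩ := h D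
  refine ⟨k, c, hc, fun F Q P hF hQ hP hFD hQD hPD H hH hFH hQH hPH => ?_⟩
  rcases h1 (MvPolynomial.rename (Option.map b) F) (fun i => Q (f i)) (MvPolynomial.rename (Option.map g) P)
    (rename_ne (opt_inj hb) hF) (fun i => hQ _) (rename_ne (opt_inj hg) hP)
    ((MvPolynomial.totalDegree_rename_le _ _).trans hFD)
    (fun i => hQD _) ((MvPolynomial.totalDegree_rename_le _ _).trans hPD) H hH (rename_ht (opt_inj hb) hH hFH)
    (fun i => hQH _) (rename_ht (opt_inj hg) hH hPH) with h0 | ⟨i, hi⟩ | h2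
  · refine Or.inl ?_
    rw [MvPolynomial.aeval_rename] at h0
    have h3 : ((fun o : Option ρ => o.elim (Real.exp 1) y) ∘ Option.map b) = fun o : Option ρ' => o.elim (Real.exp 1) y' := by
      funext o
      cases o with
      | none => rfl
      | some j => exact hby j
    rwa [h3] at h0
  · exact Or.inr (Or.inl ⟨f i, by rw [hf]; exact hi⟩)
  · refine Or.inr (Or.inr ?_)
    rw [MvPolynomial.aeval_rename] at h2
    have h3 : ((fun o : Option κ => o.elim (Real.exp 1) u) ∘ Option.map g) = fun o : Option κ' => o.elim (Real.exp 1) u' := by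
      funext o
      cases o with
      | none => rfl
      | some j => exact hgu j
    rwa [h3] at h2

end Pool.Agent.N778.AF
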