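import Pool.Agent.N778.AF.Field
import Pool.Agent.N778.EM.Elim4
import Pool.Agent.R352.E.Mat

/-!
# Algebraic independence over the ring of the tame integers
-/

set_option autoImplicit false

open Filter Set

namespace Pool.Agent.N778.AF

open MvPolynomial
open Pool.Agent.N778.EM (MeasF fin_exp)
open Pool.Agent.R352.E (clF mem_clF subset_clF clF_mono clF_le)

variable (σ : Scale) {ι : Type}

lemma exists_pz (p : MvPolynomial ι (base σ)) : ∃ n : (ι →₀ ℕ) → tameZ σ, (∀ s, baseHom σ (n s) = (p.coeff s).1) ∧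
    p = pz σ n p.support := by
  choose n hn using fun s => (p.coeff s).2
  refine ⟨n, hn, ?_⟩
  conv_lhs => rw [p.as_sum]
  refine Finset.sum_congr rfl fun s _ => ?_
  congr 1
  exact Subtype.ext (hn s).symm

lemma coeff_Pl (n : (ι →₀ ℕ) → tameZ σ) (T : Finset (ι →₀ ℕ)) (l : ℕ) (s : ι →₀ ℕ) [Decidable (s ∈ T)] :
    (Pl n T l).coeff s = if s ∈ T then (n s).1 l else 0 := by
  classical
  rw [Pl, MvPolynomial.coeff_sum]
  simp only [MvPolynomial.coeff_monomial]
  rw [Finset.sum_ite_eq' T s]
  split_ifs <;> rfl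

lemma ev_all {T : Type} (S : Finset T) {p : T → ℕ → Prop} (h : ∀ s ∈ S, ∀ᶠ l in (UU : Filter ℕ), p s l) :
    ∀ᶠ l in (UU : Filter ℕ), ∀ s ∈ S, p s l := by
  rw [Filter.eventually_all_finset]
  exact h

lemma tame_unif {T : Type} (S : Finset T) (n : T → tameZ σ) :
    ∃ κ : ℕ, ∀ᶠ l in (UU : Filter ℕ), ∀ s ∈ S, |(((n s).1 l : ℤ) : ℝ)| ≤ σ.h l ^ κ := by
  classical
  choose k hk using fun s => (n s).2
  refine ⟨S.sup k, ev_all S fun s hs => ?_⟩
  filter_upwards [hk s] with l hl
  exact hl.trans (pow_le_pow_right₀ (σ.one_le l) (Finset.le_sup hs))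

/-- a family with a measure is algebraically independent over the ring of the tame integers -/
theorem indep_of_meas {θ : ι → ℝ} (hθ : MeasF θ) :
    AlgebraicIndependent (base σ) (fun i => cst σ (θ i)) := by
  classical
  rw [algebraicIndependent_iff]
  intro p hp
  obtain ⟨n, hn, hpn⟩ := exists_pz σ p
  rw [hpn, aeval_pz] at hp
  obtain ⟨κ, hκ⟩ := tame_unif σ p.support n
  obtain ⟨κ', c, hc, hm⟩ := hθ p.totalDegree
  have key : ∀ᶠ l in (UU : Filter ℕ), Pl n p.support l = 0 := by
    filter_upwards [hκ, hp (κ * κ' + 1), ev_ge σ (2 / c)] with l h1 h2 h3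
    by_contra hne
    have hH : 1 ≤ σ.h l ^ κ := one_le_pow₀ (σ.one_le l)
    have h4 := hm (Pl n p.support l) hne ?_ (σ.h l ^ κ) hH ?_
    · rw [← pow_mul] at h4
      rw [pow_succ] at h2
      have h5 : c * σ.h l ≤ 1 := by
        calc c * σ.h l ≤ (σ.h l ^ (κ * κ') * |aeval θ (Pl n p.support l)|) * σ.h l :=
              mul_le_mul_of_nonneg_right h4 (σ.pos l).le
          _ = |aeval θ (Pl n p.support l)| * (σ.h l ^ (κ * κ') * σ.h l) := by ring
          _ ≤ 1 := h2
      have h6 : 2 ≤ c * σ.h l := by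
        rw [div_le_iff₀ hc] at h3
        linarith
      linarith
    · refine Finset.sup_le fun s hs => ?_
      have h5 : s ∈ p.support := by
        by_contra hns
        rw [MvPolynomial.mem_support_iff, coeff_Pl, if_neg hns] at hs
        exact hs rfl
      exact MvPolynomial.le_totalDegree h5
    · intro s
      rw [coeff_Pl]
      split_ifs with hs
      · exact h1 s hs
      · simpa using (pow_pos (σ.pos l) κ).le
  ext s
  by_cases hs : s ∈ p.support
  · exfalso
    rw [MvPolynomial.mem_support_iff] at hs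
    apply hs
    have h1 : baseHom σ (n s) = 0 := by
      refine (mk_eq_zero σ).2 fun k => ?_
      filter_upwards [key] with l hl
      have h2 : (n s).1 l = 0 := by
        have h3 := congrArg (fun q => MvPolynomial.coeff s q) hl
        simp only [MvPolynomial.coeff_zero] at h3
        rw [coeff_Pl, if_pos (MvPolynomial.mem_support_iff.2 hs)] at h3
        exact h3
      show |(((n s).1 l : ℤ) : ℝ)| * _ ≤ 1
      rw [h2]
      simp
    exact Subtype.ext ((hn s).symm.trans h1)
  · rw [MvPolynomial.notMem_support_iff] at hs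
    rw [hs, MvPolynomial.coeff_zero]

/-- the limit of a family of polynomials -/
lemma exists_star [Fintype ι] (D κ : ℕ) (P : ℕ → MvPolynomial ι ℤ) (hD : ∀ l, (P l).totalDegree ≤ D)
    (hP : ∀ l s, |(((P l).coeff s : ℤ) : ℝ)| ≤ σ.h l ^ κ) (hne : ∀ l, P l ≠ 0) :
    ∃ p : MvPolynomial ι (base σ), p ≠ 0 ∧ ∀ u : ι → ℝ, Neg σ (fun l => aeval u (P l)) →
      aeval (fun i => cst σ (u i)) p = 0 := by
  classical
  let T : Finset (ι →₀ ℕ) := (fin_exp ι D).toFinset
  have hT : ∀ l, (P l).support ⊆ T := by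
    intro l s hs
    rw [Set.Finite.mem_toFinset]
    have h1 := (MvPolynomial.le_totalDegree hs).trans (hD l)
    rw [Finsupp.sum_fintype _ _ (fun _ => rfl)] at h1
    exact h1
  let n : (ι →₀ ℕ) → tameZ σ := fun s => ⟨fun l => (P l).coeff s, κ, Eventually.of_forall fun l => hP l s⟩
  have hPl : ∀ l, Pl n T l = P l := by
    intro l
    ext s
    rw [coeff_Pl]
    split_ifs with hs
    · rfl
    · have h1 : s ∉ (P l).support := fun h => hs (hT l h)
      rw [MvPolynomial.notMem_support_iff] at h1
      exact h1.symm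
  refine ⟨pz σ n T, ?_, fun u hu => ?_⟩
  · intro h0
    have h1 : ∀ s ∈ T, ∀ᶠ l in (UU : Filter ℕ), (P l).coeff s = 0 := by
      intro s hs
      have h2 := congrArg (fun q => MvPolynomial.coeff s q) h0
      simp only [MvPolynomial.coeff_zero] at h2
      rw [pz, MvPolynomial.coeff_sum] at h2
      simp only [MvPolynomial.coeff_monomial] at h2
      rw [Finset.sum_ite_eq' T s, if_pos hs] at h2
      exact baseHom_eq_zero σ (n := n s) (congrArg Subtype.val h2)
    obtain ⟨l, hl⟩ := (ev_all T h1).exists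
    apply hne l
    ext s
    rw [MvPolynomial.coeff_zero]
    by_cases hs : s ∈ T
    · exact hl s hs
    · have h1 : s ∉ (P l).support := fun h => hs (hT l h)
      exact MvPolynomial.notMem_support_iff.1 h1
  · rw [aeval_pz]
    simp only [hPl]
    exact hu

/-- the matroid of algebraic independence over the ring of the tame integers -/
noncomputable abbrev Ma : Matroid (AK σ) := AlgebraicIndependent.matroid (base σ) (AK σ)

lemma mem_Ma {S : Set (AK σ)} {x : AK σ} : x ∈ (Ma σ).closure S ↔ IsAlgebraic (Algebra.adjoin (base σ) S) x := by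
  rw [AlgebraicIndependent.matroid_closure_eq]
  exact Iff.rfl

end Pool.Agent.N778.AF
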