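import Pool.Agent.N778.AF.Indep

/-!
# The transfer principle: measures from algebraic independence over the tame integers
-/

set_option autoImplicit false

open Filter Set

namespace Pool.Agent.N778.AF

open MvPolynomial
open Pool.Agent.N778.EM (MeasF fin_exp)
open Pool.Agent.R352.E (clF mem_clF subset_clF clF_mono clF_le)

variable (σ : Scale) {ι : Type}

/-- the elements algebraic over a set, as a subfield -/
noncomputable def clA (S : Set (AK σ)) : Subfield (AK σ) where
  carrier := (Ma σ).closure S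
  mul_mem' := fun ha hb => (mem_Ma σ).2 (((mem_Ma σ).1 ha).mul ((mem_Ma σ).1 hb))
  one_mem' := (mem_Ma σ).2 isAlgebraic_one
  add_mem' := fun ha hb => (mem_Ma σ).2 (((mem_Ma σ).1 ha).add ((mem_Ma σ).1 hb))
  zero_mem' := (mem_Ma σ).2 isAlgebraic_zero
  neg_mem' := fun ha => (mem_Ma σ).2 ((mem_Ma σ).1 ha).neg
  inv_mem' := fun _ ha => (mem_Ma σ).2 ((mem_Ma σ).1 ha).inv

lemma mem_clA_of_alg {S : Set (AK σ)} {x : AK σ} (h : IsAlgebraic (clA σ S) x) : x ∈ clA σ S := by
  refine (mem_Ma σ).2 ?_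
  let R₂ := Algebra.adjoin (base σ) S
  let C : Subalgebra R₂ (AK σ) := Subalgebra.algebraicClosure R₂ (AK σ)
  have h1 : IsAlgebraic C x := by
    obtain ⟨p, hp, hpx⟩ := h
    let f : clA σ S →+* C :=
      { toFun := fun z => ⟨z.1, (mem_Ma σ).1 z.2⟩
        map_one' := rfl
        map_mul' := fun _ _ => rfl
        map_zero' := rfl
        map_add' := fun _ _ => rfl }
    have hf : Function.Injective f := fun a b h => Subtype.ext (congrArg (fun z : C => (z : AK σ)) h)
    refine ⟨p.map f, (Polynomial.map_ne_zero_iff hf).2 hp, ?_⟩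
    rw [Polynomial.aeval_def, Polynomial.eval₂_map]
    exact hpx
  exact h1.restrictScalars R₂

lemma cst_mem {T : Set ℝ} {x : ℝ} (hx : x ∈ clF T) : cst σ x ∈ clA σ (cst σ '' T) := by
  have h1 : IsAlgebraic (Algebra.adjoin ℚ T) x := Pool.Agent.R352.E.mem_cl_iff.1 hx
  have hT : ∀ z ∈ Algebra.adjoin ℚ T, cst σ z ∈ clA σ (cst σ '' T) := by
    intro z hz
    let C' : Subfield ℝ := (clA σ (cst σ '' T)).comap (cst σ)
    have h2 : Algebra.adjoin ℚ T ≤ ({ C' with algebraMap_mem' := fun r => SubfieldClass.ratCast_mem C' r } : Subalgebra ℚ ℝ) := by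
      refine Algebra.adjoin_le ?_
      intro y hy
      exact Matroid.subset_closure (Ma σ) _ (subset_univ _) (mem_image_of_mem _ hy)
    exact h2 hz
  refine mem_clA_of_alg σ ?_
  obtain ⟨p, hp, hpx⟩ := h1
  let f : Algebra.adjoin ℚ T →+* clA σ (cst σ '' T) :=
    { toFun := fun z => ⟨cst σ z.1, hT z.1 z.2⟩
      map_one' := Subtype.ext (map_one (cst σ))
      map_mul' := fun a b => Subtype.ext (map_mul (cst σ) _ _)
      map_zero' := Subtype.ext (map_zero (cst σ))
      map_add' := fun a b => Subtype.ext (map_add (cst σ) _ _) }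
  have hf : Function.Injective f := by
    intro a b h
    exact Subtype.ext ((cst σ).injective (congrArg (fun z : clA σ (cst σ '' T) => (z : AK σ)) h))
  refine ⟨p.map f, (Polynomial.map_ne_zero_iff hf).2 hp, ?_⟩
  rw [Polynomial.aeval_def, Polynomial.eval₂_map]
  have h3 : (algebraMap (clA σ (cst σ '' T)) (AK σ)).comp f = (cst σ).comp (algebraMap (Algebra.adjoin ℚ T) ℝ) := rfl
  rw [h3, ← Polynomial.hom_eval₂]
  have h4 : Polynomial.eval₂ (algebraMap (Algebra.adjoin ℚ T) ℝ) x p = 0 := hpx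
  rw [h4, map_zero]

lemma subset_clA (S : Set (AK σ)) : S ⊆ clA σ S := Matroid.subset_closure (Ma σ) S (subset_univ _)

lemma clA_mono {S T : Set (AK σ)} (h : S ⊆ T) : clA σ S ≤ clA σ T := Matroid.closure_subset_closure (Ma σ) h

lemma clA_le {S T : Set (AK σ)} (h : S ⊆ clA σ T) : clA σ S ≤ clA σ T :=
  Matroid.closure_subset_closure_of_subset_closure h

/-- transfer of a relation between real numbers -/
lemma cst_mem_of {T : Set ℝ} {x : ℝ} (hx : x ∈ clF T) {S : Set (AK σ)} (hT : ∀ t ∈ T, cst σ t ∈ clA σ S) :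
    cst σ x ∈ clA σ S := by
  refine clA_le σ ?_ (cst_mem σ hx)
  rintro _ ⟨t, ht, rfl⟩
  exact hT t ht

lemma card_leA {ι : Type*} [Fintype ι] {x : ι → AK σ} (hx : AlgebraicIndependent (base σ) x) {T : Set (AK σ)}
    (h : ∀ i, x i ∈ clA σ T) : (Fintype.card ι : ℕ∞) ≤ (Ma σ).eRk T := by
  have h1 : (Ma σ).Indep (range x) := hx.to_subtype_range
  have h2 : range x ⊆ (Ma σ).closure T := by
    rintro _ ⟨i, rfl⟩
    exact h i
  calc (Fintype.card ι : ℕ∞) = (range x).encard := by
        rw [← image_univ, hx.injective.injOn.encard_image, encard_univ, ENat.card_eq_coe_fintype_card]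
    _ ≤ (Ma σ).eRk ((Ma σ).closure T) := h1.encard_le_eRk_of_subset h2
    _ = (Ma σ).eRk T := Matroid.eRk_closure_eq (Ma σ) T

/-- as many elements spanning independent elements are independent -/
lemma indep_of_spanA {ι κ : Type*} [Fintype ι] [Fintype κ] {x : ι → AK σ} (hx : AlgebraicIndependent (base σ) x)
    {y : κ → AK σ} (h : ∀ i, x i ∈ clA σ (range y)) (hc : Fintype.card κ ≤ Fintype.card ι) :
    AlgebraicIndependent (base σ) y := by
  have h1 := card_leA σ hx h
  have h2 : (range y).encard ≤ Fintype.card κ := by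
    rw [← image_univ, ← ENat.card_eq_coe_fintype_card, ← encard_univ]
    exact encard_image_le _ _
  have h3 : (Fintype.card κ : ℕ∞) ≤ (range y).encard :=
    (by exact_mod_cast hc : (Fintype.card κ : ℕ∞) ≤ Fintype.card ι).trans (h1.trans (Matroid.eRk_le_encard _ _))
  have hfin : (range y).Finite := finite_range y
  have h4 : (Ma σ).Indep (range y) := by
    refine ((Ma σ).isRkFinite_of_finite hfin).indep_of_encard_le_eRk ?_
    exact h2.trans ((by exact_mod_cast hc : (Fintype.card κ : ℕ∞) ≤ Fintype.card ι).trans h1)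
  have hinj : Function.Injective y := by
    rw [← injOn_univ]
    refine Finite.injOn_of_encard_image_eq finite_univ ?_
    rw [image_univ]
    refine le_antisymm (h2.trans ?_) ?_
    · rw [encard_univ, ENat.card_eq_coe_fintype_card]
    · rw [encard_univ, ENat.card_eq_coe_fintype_card]; exact h3
  exact (algebraicIndependent_subtype_range hinj).1 h4

/-- an element which is dependent on an independent family is algebraic over it -/
lemma mem_of_dep {ι : Type*} {x : ι → AK σ} (hx : AlgebraicIndependent (base σ) x) {y : AK σ}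
    (h : ¬ AlgebraicIndependent (base σ) (fun o : Option ι => o.elim y x)) : y ∈ clA σ (range x) := by
  rw [hx.option_iff_transcendental] at h
  rw [Transcendental, not_not] at h
  exact (mem_Ma σ).2 h

/-- The tuples `x a` are not simultaneously near a relation: for every `D` there are `k` and `c > 0` such that for all
nonzero integral polynomials `P a` of degree at most `D` and height at most `H` one of the numbers `P a (x a)` is at
least `c / H ^ k` in absolute value. -/
def NS {A : Type} {ι : A → Type} (x : (a : A) → ι a → ℝ) : Prop :=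
  ∀ D : ℕ, ∃ k : ℕ, ∃ c : ℝ, 0 < c ∧ ∀ P : (a : A) → MvPolynomial (ι a) ℤ, (∀ a, P a ≠ 0) →
    (∀ a, (P a).totalDegree ≤ D) → ∀ H : ℝ, 1 ≤ H → (∀ a s, |(((P a).coeff s : ℤ) : ℝ)| ≤ H) →
      ∃ a, c ≤ H ^ k * |aeval (x a) (P a)|

/-- **The transfer principle** -/
theorem NS_of {A : Type} {ι : A → Type} [∀ a, Fintype (ι a)] (x : (a : A) → ι a → ℝ)
    (h : ∀ σ : Scale, ∃ a, AlgebraicIndependent (base σ) (fun i => cst σ (x a i))) : NS x := by
  classical
  intro D
  by_contra hcon
  push Not at hcon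
  have hc : ∀ l : ℕ, (0 : ℝ) < (((l : ℝ) + 1) ^ l)⁻¹ := fun l => by positivity
  choose P hP0 hPD H hH hPH hPs using fun l : ℕ => hcon l _ (hc l)
  let σ : Scale := ⟨fun l => ((l : ℝ) + 1) * H l, fun l => by
    have h1 := hH l
    have h2 : (0 : ℝ) ≤ l := Nat.cast_nonneg l
    nlinarith⟩
  obtain ⟨a, ha⟩ := h σ
  obtain ⟨p, hp0, hp⟩ := exists_star σ D 1 (fun l => P l a) (fun l => hPD l a) (fun l s => by
    rw [pow_one]
    refine (hPH l a s).trans ?_
    show H l ≤ ((l : ℝ) + 1) * H l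
    have h1 := hH l
    have h2 : (0 : ℝ) ≤ l := Nat.cast_nonneg l
    nlinarith) (fun l => hP0 l a)
  refine hp0 ((algebraicIndependent_iff.1 ha) p (hp (x a) fun k => ?_))
  refine ev_of_ge k fun l hl => ?_
  have h1 := hPs l a
  have h2 : σ.h l ^ l = ((l : ℝ) + 1) ^ l * H l ^ l := mul_pow _ _ _
  have h3 : σ.h l ^ k ≤ σ.h l ^ l := pow_le_pow_right₀ (σ.one_le l) hl
  have h4 : (0 : ℝ) < ((l : ℝ) + 1) ^ l := by positivity
  calc |aeval (x a) (P l a)| * σ.h l ^ k ≤ |aeval (x a) (P l a)| * σ.h l ^ l :=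
        mul_le_mul_of_nonneg_left h3 (abs_nonneg _)
    _ = ((l : ℝ) + 1) ^ l * (H l ^ l * |aeval (x a) (P l a)|) := by rw [h2]; ring
    _ ≤ ((l : ℝ) + 1) ^ l * (((l : ℝ) + 1) ^ l)⁻¹ := mul_le_mul_of_nonneg_left h1.le h4.le
    _ = 1 := mul_inv_cancel₀ h4.ne'

/-- the converse for one tuple -/
theorem measF_of {ι : Type} [Fintype ι] (x : ι → ℝ)
    (h : ∀ σ : Scale, AlgebraicIndependent (base σ) (fun i => cst σ (x i))) : MeasF x := by
  intro D
  obtain ⟨k, c, hc, h1⟩ := NS_of (A := Unit) (ι := fun _ => ι) (fun _ => x) (fun σ => ⟨(), h σ⟩) D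
  refine ⟨k, c, hc, fun P hP hD H hH hPH => ?_⟩
  obtain ⟨_, h2⟩ := h1 (fun _ => P) (fun _ => hP) (fun _ => hD) H hH (fun _ => hPH)
  exact h2

end Pool.Agent.N778.AF
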