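import Pool.Agent.N778.AF.Gen3

/-!
# Simultaneous approximation to every order
-/

set_option autoImplicit false

open Filter Set MeasureTheory

namespace Pool.Agent.N778.AF

open MvPolynomial
open Pool.Agent.N778.EM (MeasF)

/-- a linear polynomial -/
noncomputable def QL (b a : ℤ) : MvPolynomial (Fin 2) ℤ := C b * X 0 - C a

lemma QL_eval (b a : ℤ) (t : ℝ) : aeval ![t, Real.exp 1] (QL b a) = b * t - a := by
  simp [QL]

lemma QL_deg (b a : ℤ) : (QL b a).totalDegree ≤ 1 := by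
  refine (MvPolynomial.totalDegree_sub _ _).trans (max_le ?_ ?_)
  · refine (MvPolynomial.totalDegree_mul _ _).trans ?_
    rw [MvPolynomial.totalDegree_C, MvPolynomial.totalDegree_X]
  · rw [MvPolynomial.totalDegree_C]
    omega

lemma QL_coeff (b a : ℤ) (s : Fin 2 →₀ ℕ) {H : ℝ} (hb : |(b : ℝ)| ≤ H) (ha : |(a : ℝ)| ≤ H) :
    |(((QL b a).coeff s : ℤ) : ℝ)| ≤ H := by
  classical
  have h0 : 0 ≤ H := (abs_nonneg _).trans hb
  have e1 : (C b * X 0 : MvPolynomial (Fin 2) ℤ) = monomial (Finsupp.single 0 1) b := by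
    rw [MvPolynomial.X, MvPolynomial.C_mul_monomial]
    simp
  have e2 : (C a : MvPolynomial (Fin 2) ℤ) = monomial 0 a := rfl
  rw [QL, e1, e2, MvPolynomial.coeff_sub, MvPolynomial.coeff_monomial, MvPolynomial.coeff_monomial]
  by_cases h1 : Finsupp.single (0 : Fin 2) 1 = s
  · have h2 : (0 : Fin 2 →₀ ℕ) ≠ s := by
      rw [← h1]
      intro h
      have := DFunLike.congr_fun h 0
      simp at this
    rw [if_pos h1, if_neg h2, sub_zero]
    exact hb
  · rw [if_neg h1]
    split_ifs with h2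
    · rw [zero_sub, Int.cast_neg, abs_neg]
      exact ha
    · simpa using h0

lemma QL_ne {b : ℤ} (hb : b ≠ 0) (a : ℤ) : QL b a ≠ 0 := by
  intro h
  have h1 := congrArg (aeval (![1, 1] : Fin 2 → ℤ)) h
  have h2 := congrArg (aeval (![0, 0] : Fin 2 → ℤ)) h
  simp [QL] at h1 h2
  omega

/-- if the numbers `v i` are simultaneously approximable to every order then `e` and the numbers `u j` are
algebraically independent -/
theorem Dx.indep_sim {ν κ : Type} [Fintype ν] {v : ν → ℝ} {u : κ → ℝ} (h : Dx v u)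
    (hv : ∀ n : ℕ, ∃ q : ℕ, 2 ≤ q ∧ ∃ p : ν → ℤ, ∀ i, |v i - p i / q| < 1 / (q : ℝ) ^ n) :
    AlgebraicIndependent ℚ (fun o : Option κ => o.elim (Real.exp 1) u) := by
  refine Pool.Agent.N778.EM.algInd_Q ?_
  rw [algebraicIndependent_iff]
  intro P hP
  by_contra hP0
  obtain ⟨k, c, hc, h1⟩ := h (max 1 P.totalDegree)
  obtain ⟨B, hB, hPB⟩ := exists_ht P
  set A : ℝ := B + ∑ i, |v i| + 1 with hA
  have hsum : 0 ≤ ∑ i, |v i| := Finset.sum_nonneg fun _ _ => abs_nonneg _
  have hA1 : 1 ≤ A := by linarith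
  have hA0 : 0 < A := by linarith
  obtain ⟨m, hm⟩ := pow_unbounded_of_one_lt (A ^ k / c) (one_lt_two (α := ℝ))
  obtain ⟨q, hq, p, hp⟩ := hv (k + 1 + m)
  have hq2 : (2 : ℝ) ≤ q := by exact_mod_cast hq
  have hq1 : (1 : ℝ) ≤ q := by linarith
  have hq0 : (0 : ℝ) < q := by linarith
  have hsmall : ∀ i, |(q : ℝ) * v i - p i| < 1 / (q : ℝ) ^ (k + m) := by
    intro i
    have e1 : (q : ℝ) * v i - p i = q * (v i - p i / q) := by field_simp
    rw [e1, abs_mul, abs_of_pos hq0]
    calc (q : ℝ) * |v i - p i / q| < q * (1 / (q : ℝ) ^ (k + 1 + m)) := mul_lt_mul_of_pos_left (hp i) hq0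
      _ = 1 / (q : ℝ) ^ (k + m) := by
        rw [show k + 1 + m = (k + m) + 1 by ring, pow_succ]
        field_simp
  have hpA : ∀ i, |(p i : ℝ)| ≤ A * q := by
    intro i
    have h2 : |(p i : ℝ)| ≤ |(q : ℝ) * v i| + |(q : ℝ) * v i - p i| := by
      have := abs_sub_abs_le_abs_sub ((p i : ℝ)) (q * v i)
      rw [abs_sub_comm] at this
      linarith
    have h3 : 1 / (q : ℝ) ^ (k + m) ≤ 1 := by
      rw [div_le_one (by positivity)]
      exact one_le_pow₀ hq1
    have h4 : |(q : ℝ) * v i| = q * |v i| := by rw [abs_mul, abs_of_pos hq0]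
    have h5 : |v i| ≤ ∑ i, |v i| := Finset.single_le_sum (f := fun i => |v i|) (fun _ _ => abs_nonneg _) (Finset.mem_univ i)
    have h6 := hsmall i
    rw [h4] at h2
    rw [hA]
    nlinarith
  have hAq : 1 ≤ A * q := by nlinarith
  rcases h1 (fun i => QL q (p i)) P (fun i => QL_ne (by exact_mod_cast hq0.ne') _) hP0
    (fun i => (QL_deg _ _).trans (le_max_left _ _)) (le_max_right _ _) (A * q) hAq
    (fun i s => QL_coeff _ _ s (by
      rw [Int.cast_natCast, abs_of_pos hq0]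
      nlinarith) (hpA i)) (fun s => (hPB s).trans (by nlinarith)) with ⟨i, h2⟩ | h2
  · rw [QL_eval, Int.cast_natCast] at h2
    have h3 := h2.trans_lt (hsmall i)
    rw [div_lt_div_iff₀ (by positivity) (by positivity), one_mul, mul_pow, pow_add] at h3
    have h4 : (2 : ℝ) ^ m ≤ (q : ℝ) ^ m := pow_le_pow_left₀ (by norm_num) hq2 m
    have h5 : A ^ k ≤ c * (q : ℝ) ^ m := by
      rw [div_lt_iff₀ hc] at hm
      nlinarith
    have h6 : (0 : ℝ) < (q : ℝ) ^ k := by positivity
    nlinarith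
  · rw [hP, abs_zero] at h2
    have : 0 < c / (A * q) ^ k := by positivity
    linarith

end Pool.Agent.N778.AF
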