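import Pool.Agent.N778.AF.Zeta
import Pool.Agent.N778.AF.Tri

/-!
# Transport of the dichotomies along names
-/

set_option autoImplicit false

open Set MvPolynomial

namespace Pool.Agent.N778.AF

open Pool.Agent.R352.E (clF mem_clF subset_clF clF_mono clF_le of_pow zt)
open Pool.Agent.R352.Q

lemma exists_names {A B : Type} {valid : A → Prop} (f : {a // valid a} → B) (hf : Function.Injective f) (t N : Finset A)
    (ht : ∀ a ∈ t, valid a) (hN : ∀ a ∈ N, valid a) (hd : Disjoint t N) :
    ∃ t' N' : Finset B, Disjoint t' N' ∧ t'.card = t.card ∧ ∃ (ft : t' → t) (gN : N → N'), Function.Injective gN ∧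
      (∀ i : t', f ⟨ft i, ht _ (ft i).2⟩ = i) ∧ ∀ j : N, (gN j : B) = f ⟨j, hN _ j.2⟩ := by
  classical
  let it : t → B := fun a => f ⟨a, ht _ a.2⟩
  let iN : N → B := fun a => f ⟨a, hN _ a.2⟩
  have hit : Function.Injective it := fun a b h => Subtype.ext (congrArg (fun z : {a // valid a} => z.1) (hf h))
  have hiN : Function.Injective iN := fun a b h => Subtype.ext (congrArg (fun z : {a // valid a} => z.1) (hf h))
  refine ⟨Finset.univ.image it, Finset.univ.image iN, ?_, ?_, fun i => (Finset.mem_image.1 i.2).choose,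
    fun j => ⟨iN j, Finset.mem_image_of_mem _ (Finset.mem_univ _)⟩, ?_, fun i => ?_, fun j => rfl⟩
  · rw [Finset.disjoint_left]
    intro x hx hx'
    obtain ⟨p, -, rfl⟩ := Finset.mem_image.1 hx
    obtain ⟨q, -, hqp⟩ := Finset.mem_image.1 hx'
    have h2 : q.1 = p.1 := congrArg (fun z : {a // valid a} => z.1) (hf hqp)
    exact Finset.disjoint_left.1 hd p.2 (h2 ▸ q.2)
  · rw [Finset.card_image_of_injective _ hit, Finset.card_univ, Fintype.card_coe]
  · intro a b hab
    exact hiN (congrArg Subtype.val hab)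
  · exact (Finset.mem_image.1 i.2).choose_spec.2

theorem Dx_transport {A B : Type} {g : B → ℝ} {val : A → ℝ} {valid : A → Prop} (f : {a // valid a} → B)
    (hf : Function.Injective f) (hval : ∀ a, g (f a) = val a) {r : ℕ}
    (key : ∀ t N : Finset B, r ≤ t.card → Disjoint t N → Dx (fun i : t => g i) (fun j : N => g j)) {t N : Finset A}
    (ht : ∀ a ∈ t, valid a) (hN : ∀ a ∈ N, valid a) (hr : r ≤ t.card) (hd : Disjoint t N) :
    Dx (fun i : t => val i) (fun j : N => val j) := by
  obtain ⟨t', N', hd', hc, ft, gN, hgN, hft, hgf⟩ := exists_names f hf t N ht hN hd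
  refine (key t' N' (by rw [hc]; exact hr) hd').mono ft (fun i => ?_) gN hgN (fun j => ?_)
  · rw [← hft i, hval]
  · rw [hgf j, hval]

theorem Dy_transport {A B ρ : Type} {y : ρ → ℝ} {g : B → ℝ} {val : A → ℝ} {valid : A → Prop} (f : {a // valid a} → B)
    (hf : Function.Injective f) (hval : ∀ a, g (f a) = val a) {r : ℕ}
    (key : ∀ t N : Finset B, r ≤ t.card + 1 → Disjoint t N → Dy y (fun i : t => g i) (fun j : N => g j)) {t N : Finset A}
    (ht : ∀ a ∈ t, valid a) (hN : ∀ a ∈ N, valid a) (hr : r ≤ t.card + 1) (hd : Disjoint t N) :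
    Dy y (fun i : t => val i) (fun j : N => val j) := by
  obtain ⟨t', N', hd', hc, ft, gN, hgN, hft, hgf⟩ := exists_names f hf t N ht hN hd
  refine (key t' N' (by rw [hc]; exact hr) hd').mono id Function.injective_id (fun _ => rfl) ft (fun i => ?_) gN hgN
    (fun j => ?_)
  · rw [← hft i, hval]
  · rw [hgf j, hval]

/-- from finite sets of names to all names -/
theorem indep_all {A : Type} {val : A → ℝ} {valid : A → Prop} {i : A} (hfin : ∀ N : Finset A, (∀ a ∈ N, valid a) →
    i ∉ N → AlgebraicIndependent ℚ (fun o : Option N => o.elim (Real.exp 1) (fun j : N => val j))) :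
    AlgebraicIndependent ℚ (fun o : Option {a // valid a ∧ a ≠ i} => o.elim (Real.exp 1) (fun j => val j)) := by
  classical
  refine algebraicIndependent_of_finite_type fun t ht => ?_
  let N : Finset A := ht.toFinset.biUnion fun o : Option {a // valid a ∧ a ≠ i} => o.elim ∅ (fun a => {a.1})
  have hN : ∀ a : {a // valid a ∧ a ≠ i}, some a ∈ t → a.1 ∈ N := fun a ha =>
    Finset.mem_biUnion.2 ⟨some a, ht.mem_toFinset.2 ha, by simp⟩
  have hN' : ∀ a ∈ N, valid a ∧ a ≠ i := by
    intro a ha
    obtain ⟨o, -, ho⟩ := Finset.mem_biUnion.1 ha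
    cases o with
    | none => simp at ho
    | some b =>
      simp only [Option.elim, Finset.mem_singleton] at ho
      rw [ho]
      exact b.2
  have h1 := hfin N (fun a ha => (hN' a ha).1) (fun hi => (hN' i hi).2 rfl)
  let g : t → Option N := fun s =>
    match s with
    | ⟨none, _⟩ => none
    | ⟨some a, ha⟩ => some ⟨a.1, hN a ha⟩
  have hg : Function.Injective g := by
    rintro ⟨_ | a, ha⟩ ⟨_ | b, hb⟩ hab
    · rfl
    · simp [g] at hab
    · simp [g] at hab
    · simp only [g, Option.some.injEq, Subtype.mk.injEq] at hab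
      exact Subtype.ext (congrArg some (Subtype.ext hab))
  have h2 := h1.comp g hg
  convert h2 using 1
  funext s
  rcases s with ⟨_ | a, ha⟩ <;> rfl

section

variable {α : Type} [Fintype α] {c : α → ℝ} {K : Set ℕ}

lemma range_equiv {r : ℕ} (e : α ≃ Fin r) : range (c ∘ e.symm) = range c := e.symm.surjective.range_comp c

theorem zeta_c1 (hK : ∀ k ∈ K, 2 ≤ k ∧ zt k ∈ clF ({Real.exp 1} ∪ range c)) (t N : Finset (α ⊕ ZN K))
    (hcard : Fintype.card α ≤ t.card) (hd : Disjoint t N) :
    Dx (fun i : t => Sum.elim c (fun p : ZN K => Rk p.1.1 p.1.2) (i : α ⊕ ZN K))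
      (fun i : N => Sum.elim c (fun p : ZN K => Rk p.1.1 p.1.2) (i : α ⊕ ZN K)) := by
  have e := Fintype.equivFin α
  refine Dx_transport (valid := fun _ : α ⊕ ZN K => True)
    (g := Sum.elim (c ∘ e.symm) (fun p : ZN K => Rk p.1.1 p.1.2)) (r := Fintype.card α)
    (fun a => Sum.map e id a.1) ?_ ?_ (fun t N h h' => zeta_dich1 (by rw [range_equiv]; exact hK) t N h h')
    (fun _ _ => trivial) (fun _ _ => trivial) hcard hd
  · intro a b h
    exact Subtype.ext (Function.Injective.sumMap e.injective Function.injective_id h)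
  · rintro ⟨a | a, -⟩
    · simp
    · simp

theorem zeta_c2 (hK : ∀ k ∈ K, 2 ≤ k ∧ zt k ∈ clF ({Real.exp 1} ∪ range c)) (t N : Finset (ZN K))
    (hcard : Fintype.card α ≤ t.card + 1) (hd : Disjoint t N) :
    Dy c (fun i : t => Rk (i : ZN K).1.1 (i : ZN K).1.2) (fun i : N => Rk (i : ZN K).1.1 (i : ZN K).1.2) := by
  have e := Fintype.equivFin α
  refine (zeta_dich2 (y := c ∘ e.symm) (by rw [range_equiv]; exact hK) t N hcard hd).mono e e.injective (fun i => ?_)
    id (fun _ => rfl) id Function.injective_id (fun _ => rfl)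
  simp

end

end Pool.Agent.N778.AF
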