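import Pool.Agent.N778.AF.Tp
import Pool.Agent.N778.AF.Gam

/-!
# Transport of the dichotomies along names: incomplete gamma values
-/

set_option autoImplicit false

open Set MvPolynomial

namespace Pool.Agent.N778.AF

open Pool.Agent.R352.E (clF mem_clF subset_clF clF_mono clF_le of_pow zt)
open Pool.Agent.R352.T (gu)

lemma exists_names' {A B : Type} {valid : A → Prop} (f : {a // valid a} → B) (hf : Function.Injective f) (t N : Finset A)
    (ht : ∀ a ∈ t, valid a) (hN : ∀ a ∈ N, valid a) (hd : Disjoint t N) :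
    ∃ t' N' : Finset B, Disjoint t' N' ∧ t'.card = t.card ∧ (∀ b ∈ t', b ∈ range f) ∧ (∀ b ∈ N', b ∈ range f) ∧
      ∃ (ft : t' → t) (gN : N → N'), Function.Injective gN ∧
      (∀ i : t', f ⟨ft i, ht _ (ft i).2⟩ = i) ∧ ∀ j : N, (gN j : B) = f ⟨j, hN _ j.2⟩ := by
  classical
  let it : t → B := fun a => f ⟨a, ht _ a.2⟩
  let iN : N → B := fun a => f ⟨a, hN _ a.2⟩
  have hit : Function.Injective it := fun a b h => Subtype.ext (congrArg (fun z : {a // valid a} => z.1) (hf h))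
  have hiN : Function.Injective iN := fun a b h => Subtype.ext (congrArg (fun z : {a // valid a} => z.1) (hf h))
  refine ⟨Finset.univ.image it, Finset.univ.image iN, ?_, ?_, ?_, ?_, fun i => (Finset.mem_image.1 i.2).choose,
    fun j => ⟨iN j, Finset.mem_image_of_mem _ (Finset.mem_univ _)⟩, ?_, fun i => ?_, fun j => rfl⟩
  · rw [Finset.disjoint_left]
    intro x hx hx'
    obtain ⟨p, -, rfl⟩ := Finset.mem_image.1 hx
    obtain ⟨q, -, hqp⟩ := Finset.mem_image.1 hx'
    have h2 : q.1 = p.1 := congrArg (fun z : {a // valid a} => z.1) (hf hqp)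
    exact Finset.disjoint_left.1 hd p.2 (h2 ▸ q.2)
  · rw [Finset.card_image_of_injective _ hit, Finset.card_univ, Fintype.card_coe]
  · intro b hb
    obtain ⟨p, -, rfl⟩ := Finset.mem_image.1 hb
    exact ⟨_, rfl⟩
  · intro b hb
    obtain ⟨p, -, rfl⟩ := Finset.mem_image.1 hb
    exact ⟨_, rfl⟩
  · intro a b hab
    exact hiN (congrArg Subtype.val hab)
  · exact (Finset.mem_image.1 i.2).choose_spec.2

theorem Dx_transport' {A B : Type} {g : B → ℝ} {val : A → ℝ} {valid : A → Prop} {valid' : B → Prop}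
    (f : {a // valid a} → B) (hf : Function.Injective f) (hval : ∀ a, g (f a) = val a) (hv : ∀ a, valid' (f a)) {r : ℕ}
    (key : ∀ t N : Finset B, (∀ b ∈ t, valid' b) → (∀ b ∈ N, valid' b) → r ≤ t.card → Disjoint t N →
      Dx (fun i : t => g i) (fun j : N => g j)) {t N : Finset A}
    (ht : ∀ a ∈ t, valid a) (hN : ∀ a ∈ N, valid a) (hr : r ≤ t.card) (hd : Disjoint t N) :
    Dx (fun i : t => val i) (fun j : N => val j) := by
  obtain ⟨t', N', hd', hc, h1, h2, ft, gN, hgN, hft, hgf⟩ := exists_names' f hf t N ht hN hd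
  refine (key t' N' (fun b hb => ?_) (fun b hb => ?_) (by rw [hc]; exact hr) hd').mono ft (fun i => ?_) gN hgN (fun j => ?_)
  · obtain ⟨a, rfl⟩ := h1 b hb
    exact hv a
  · obtain ⟨a, rfl⟩ := h2 b hb
    exact hv a
  · rw [← hft i, hval]
  · rw [hgf j, hval]

section

variable {α : Type} [Fintype α] {c : α → ℝ} {A : Set ℚ}

/-- the condition on the constants -/
def GC (c : α → ℝ) (A : Set ℚ) : Prop := ∀ a ∈ A, (0 < a ∧ a < 1) ∧ Real.Gamma a ∈ clF ({Real.exp 1} ∪ range c)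

/-- the valid names -/
def VN (α : Type) (A : Set ℚ) (b : α ⊕ (ℚ × ℚ)) : Prop := ∀ p, b = Sum.inr p → p.1 ∈ A ∧ 0 < p.2

theorem G_c1 (h : GC c A) (t N : Finset (α ⊕ (ℚ × ℚ))) (ht : ∀ b ∈ t, VN α A b) (hN : ∀ b ∈ N, VN α A b)
    (hcard : Fintype.card α ≤ t.card) (hd : Disjoint t N) :
    Dx (fun i : t => Sum.elim c (fun p : ℚ × ℚ => gu p.1 p.2) (i : α ⊕ (ℚ × ℚ)))
      (fun i : N => Sum.elim c (fun p : ℚ × ℚ => gu p.1 p.2) (i : α ⊕ (ℚ × ℚ))) := by
  have e := Fintype.equivFin α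
  refine Dx_transport' (valid := VN α A) (valid' := VN (Fin (Fintype.card α)) A)
    (g := Sum.elim (c ∘ e.symm) (fun p : ℚ × ℚ => gu p.1 p.2)) (r := Fintype.card α)
    (fun a => Sum.map e id a.1) ?_ ?_ ?_ (fun t N ht hN h1 h' => G_gen1 (y := c ∘ e.symm) (A := A) ?_ t N ?_ h1 h')
    ht hN hcard hd
  · intro a b h
    exact Subtype.ext (Function.Injective.sumMap e.injective Function.injective_id h)
  · rintro ⟨a | a, -⟩
    · simp
    · simp
  · rintro ⟨a | a, ha⟩ p hp
    · simp at hp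
    · simp only [Sum.map_inr, id_eq, Sum.inr.injEq] at hp
      subst hp
      exact ha _ rfl
  · intro a ha
    rw [range_equiv]
    exact h a ha
  · rintro p (hp | hp)
    · exact ht _ hp p rfl
    · exact hN _ hp p rfl

theorem G_c2 (h : GC c A) (t N : Finset (ℚ × ℚ)) (hv : ∀ p, p ∈ t ∨ p ∈ N → p.1 ∈ A ∧ 0 < p.2)
    (hcard : Fintype.card α ≤ t.card + 1) (hd : Disjoint t N) :
    Dy c (fun p : t => gu (p : ℚ × ℚ).1 (p : ℚ × ℚ).2) (fun p : N => gu (p : ℚ × ℚ).1 (p : ℚ × ℚ).2) := by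
  have e := Fintype.equivFin α
  refine (G_gen2 (y := c ∘ e.symm) (A := A) (fun a ha => by rw [range_equiv]; exact h a ha) t N hv hcard hd).mono e
    e.injective (fun i => ?_) id (fun _ => rfl) id Function.injective_id (fun _ => rfl)
  simp

end

end Pool.Agent.N778.AF
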